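import Mathlib

/-!
# MP_3f690c_an : the positive Toeplitz completion class, for the algebras `C(X, M_N)`

Definitions and exact statements of the pieces of
`C(X, M_N) ∈ PTC ↔ X is an F-space` (N ≥ 2, X compact Hausdorff).
-/

namespace Pool.Agent.R841.TC

open Matrix
open scoped ComplexOrder

universe u

/-- A square matrix over a *-ring is positive when it is of the form `Bᴴ * B`
(over a C*-algebra this is positivity in the C*-algebra of matrices). -/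
def MatPos {A : Type u} [NonUnitalRing A] [StarRing A] {m : ℕ}
    (M : Matrix (Fin m) (Fin m) A) : Prop :=
  ∃ B : Matrix (Fin m) (Fin m) A, M = Bᴴ * B

/-- The positive Toeplitz completion class. -/
def PTC (A : Type u) [NonUnitalRing A] [StarRing A] : Prop :=
  ∀ k n : ℕ, 0 < k → k < n → ∀ a : ℤ → A,
    MatPos (Matrix.of fun i j : Fin k => a ((i : ℤ) - (j : ℤ))) →
    ∃ y : ℤ → A, (∀ l : ℤ, |l| < (k : ℤ) → y l = a l) ∧
      MatPos (Matrix.of fun i j : Fin n => y ((i : ℤ) - (j : ℤ)))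

/-- F-spaces (Gillman-Jerison): every real continuous function is a continuous multiple of
its absolute value. -/
def FSpace (X : Type u) [TopologicalSpace X] : Prop :=
  ∀ f : C(X, ℝ), ∃ g : C(X, ℝ), ∀ x, f x = g x * |f x|

/-- contraction, algebraically -/
def Contr {ι : Type} [Fintype ι] [DecidableEq ι] (U : Matrix ι ι ℂ) : Prop :=
  (1 - Uᴴ * U).PosSemidef

/-- sum of all `j`-column Gram determinants -/
noncomputable def phi {ι κ : Type} [Fintype ι] [Fintype κ] [DecidableEq κ]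
    (j : ℕ) (x : Matrix ι κ ℂ) : ℝ :=
  ∑ s : Fin j → κ, (((x.submatrix id s)ᴴ * (x.submatrix id s)).det).re

/-- `∑_s y_s adj(x_s^* x_s) x_s^*` over all choices of `j` columns -/
noncomputable def EE {ι κ : Type} [Fintype ι] [Fintype κ] [DecidableEq κ]
    (j : ℕ) (x y : Matrix ι κ ℂ) : Matrix ι ι ℂ :=
  ∑ s : Fin j → κ, (y.submatrix id s) *
    ((x.submatrix id s)ᴴ * (x.submatrix id s)).adjugate * (x.submatrix id s)ᴴ

/-- range projection / partial isometry on the rank `j` set -/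
noncomputable def ee {ι κ : Type} [Fintype ι] [Fintype κ] [DecidableEq κ]
    (j : ℕ) (x y : Matrix ι κ ℂ) : Matrix ι ι ℂ :=
  (((phi j x)⁻¹ : ℝ) : ℂ) • EE j x y

/-- the block Toeplitz matrix of the powers of `U` compressed by `R` -/
def TB {ι ν : Type} [Fintype ι] [DecidableEq ι] [Fintype ν] (n : ℕ)
    (U : Matrix ι ι ℂ) (R : Matrix ι ν ℂ) : Matrix (Fin n × ν) (Fin n × ν) ℂ :=
  Matrix.of fun a b =>
    if (b.1 : ℕ) ≤ (a.1 : ℕ) then (Rᴴ * (Uᴴ) ^ ((a.1 : ℕ) - (b.1 : ℕ)) * R) a.2 b.2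
    else (Rᴴ * U ^ ((b.1 : ℕ) - (a.1 : ℕ)) * R) a.2 b.2

/-! ## pieces -/

/-- TC-EXT : cozero sets of F-spaces are C*-embedded (real case). -/
def S_EXT : Prop := ∀ (X : Type u) [TopologicalSpace X], FSpace X →
  ∀ (φ : C(X, ℝ)) (w : X → ℝ), ContinuousOn w {x | φ x ≠ 0} → (∀ x, |w x| ≤ 1) →
    ∃ W : C(X, ℝ), ∀ x, φ x ≠ 0 → W x = w x

/-- TC-MEXT : the same for contraction-valued matrix functions. -/
def S_MEXT : Prop := ∀ (X : Type u) [TopologicalSpace X], FSpace X →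
  ∀ (ι : Type) [Fintype ι] [DecidableEq ι] (φ : C(X, ℝ)) (U : X → Matrix ι ι ℂ),
    ContinuousOn U {x | φ x ≠ 0} → (∀ x, φ x ≠ 0 → Contr (U x)) →
    ∃ W : X → Matrix ι ι ℂ, Continuous W ∧ (∀ x, Contr (W x)) ∧ ∀ x, φ x ≠ 0 → W x = U x

/-- TC-PHI : the functions `phi` are nonnegative, `phi 0 = 1`, `phi j = 0` for `j > card κ`,
and everything is continuous. -/
def S_PHI : Prop := ∀ (ι κ : Type) [Fintype ι] [Fintype κ] [DecidableEq κ],
  (∀ (j : ℕ) (x : Matrix ι κ ℂ), 0 ≤ phi j x) ∧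
  (∀ x : Matrix ι κ ℂ, phi 0 x = 1) ∧
  (∀ (j : ℕ) (x : Matrix ι κ ℂ), Fintype.card κ < j → phi j x = 0) ∧
  (∀ j : ℕ, Continuous fun x : Matrix ι κ ℂ => phi j x) ∧
  (∀ j : ℕ, Continuous fun p : Matrix ι κ ℂ × Matrix ι κ ℂ => EE j p.1 p.2)

/-- TC-RK : on the set where the rank is exactly `j`, `ee j x x` is the range projection of `x`
and `ee j x y` the partial isometry carrying `x` to `y`. -/
def S_RK : Prop := ∀ (ι κ : Type) [Fintype ι] [DecidableEq ι] [Fintype κ] [DecidableEq κ]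
  (j : ℕ) (x y : Matrix ι κ ℂ), xᴴ * x = yᴴ * y → phi j x ≠ 0 → phi (j + 1) x = 0 →
    (ee j x x)ᴴ = ee j x x ∧ ee j x x * ee j x x = ee j x x ∧
    (ee j x y)ᴴ * ee j x y = ee j x x ∧ ee j x y * ee j x x = ee j x y ∧
    ee j x x * x = x ∧ ee j x y * x = y ∧
    ∃ q : Matrix κ ι ℂ, ee j x x = x * q ∧ ee j x y = y * q

/-- TC-CON : pointwise algebra with contractions. -/
def S_CON : Prop := ∀ (ι κ : Type) [Fintype ι] [DecidableEq ι] [Fintype κ]
  (e v w : Matrix ι ι ℂ), eᴴ = e → e * e = e → vᴴ * v = e → v * e = v → Contr w →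
    Contr (v + (1 - v * vᴴ) * w * (1 - e)) ∧
    ∀ (x y : Matrix ι κ ℂ) (q : Matrix κ ι ℂ), e = x * q → v = y * q → w * x = y →
      v + (1 - v * vᴴ) * w * (1 - e) = w

/-- TC-IND : the main induction over the rank strata. -/
def S_E : Prop := ∀ (X : Type u) [TopologicalSpace X], FSpace X →
  ∀ (ι κ : Type) [Fintype ι] [DecidableEq ι] [Fintype κ] [DecidableEq κ]
    (x y : X → Matrix ι κ ℂ), Continuous x → Continuous y →
    (∀ p, (x p)ᴴ * x p = (y p)ᴴ * y p) →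
    ∃ U : X → Matrix ι ι ℂ, Continuous U ∧ (∀ p, Contr (U p)) ∧ ∀ p, U p * x p = y p

def S_IND : Prop := S_MEXT.{u} → S_PHI → S_RK → S_CON → S_E.{u}

/-- TC-SQRT : continuous positive semidefinite functions have continuous square roots. -/
def S_SQRT : Prop := ∀ (X : Type u) [TopologicalSpace X] (ι : Type) [Fintype ι] [DecidableEq ι]
  (Y : X → Matrix ι ι ℂ), Continuous Y → (∀ p, (Y p).PosSemidef) →
    ∃ B : X → Matrix ι ι ℂ, Continuous B ∧ ∀ p, Y p = (B p)ᴴ * B p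

/-- TC-TOEP : Toeplitz kernels of contractions are positive. -/
def S_TOEP : Prop := ∀ (ι ν : Type) [Fintype ι] [DecidableEq ι] [Fintype ν] [DecidableEq ν]
  (n : ℕ) (U : Matrix ι ι ℂ) (R : Matrix ι ν ℂ), Contr U → (TB n U R).PosSemidef

/-- TC-SUF : assembly of the sufficiency. -/
def S_SUFF : Prop := ∀ (X : Type u) [TopologicalSpace X] (N : ℕ),
  FSpace X → PTC C(X, Matrix (Fin N) (Fin N) ℂ)

def S_SUF : Prop := S_E.{u} → S_SQRT.{u} → S_TOEP → S_SUFF.{u}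

/-- TC-GRAM : the pointwise computation behind the necessity. -/
def S_GRAM : Prop := ∀ (N : ℕ) (h : ℝ) (p q : Fin N), p ≠ q →
  ∀ B : Matrix (Fin 3) (Fin 3) (Matrix (Fin N) (Fin N) ℂ),
    (∀ i : Fin 3, (Bᴴ * B) i i p p = 1) → (∀ i : Fin 3, (Bᴴ * B) i i q q = ((h ^ 2 : ℝ) : ℂ)) →
    (Bᴴ * B) 1 0 p q = (h : ℂ) → (Bᴴ * B) 1 0 q p = ((|h| : ℝ) : ℂ) →
    (Bᴴ * B) 2 1 p q = (h : ℂ) → (Bᴴ * B) 2 1 q p = ((|h| : ℝ) : ℂ) →
    ((|h| : ℝ) : ℂ) * (Bᴴ * B) 2 0 p p = (h : ℂ)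

/-- TC-NEC : the necessity. -/
def S_NECC : Prop := ∀ (X : Type u) [TopologicalSpace X] (N : ℕ), 2 ≤ N →
  PTC C(X, Matrix (Fin N) (Fin N) ℂ) → FSpace X

def S_NEC : Prop := S_GRAM → S_NECC.{u}

end Pool.Agent.R841.TC
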