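import Mathlib
import Pool.Agent.R841.TC.Stm

set_option autoImplicit false

/-!
CON: pointwise algebra with contractions.
-/

namespace Pool.Agent.R841.TC

open Matrix
open scoped ComplexOrder

theorem con : S_CON := by
  intro ι κ _ _ _ e v w he hee hv hve hw
  have heV : e * vᴴ = vᴴ := by
    have := congrArg Matrix.conjTranspose hve
    rwa [Matrix.conjTranspose_mul, he] at this
  have h1 : vᴴ * (1 - v * vᴴ) = 0 := by
    rw [mul_sub, mul_one, ← mul_assoc, hv, heV, sub_self]
  have h2 : (1 - v * vᴴ) * v = 0 := by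
    rw [sub_mul, one_mul, mul_assoc, hv, hve, sub_self]
  have h3 : (1 - v * vᴴ) * (1 - v * vᴴ) = 1 - v * vᴴ := by
    rw [sub_mul, one_mul, mul_assoc, h1, mul_zero, sub_zero]
  have h4 : (1 - e) * (1 - e) = 1 - e := by
    rw [sub_mul, one_mul, mul_sub, mul_one, hee, sub_self, sub_zero]
  have hc1 : (1 - e)ᴴ = 1 - e := by
    rw [Matrix.conjTranspose_sub, Matrix.conjTranspose_one, he]
  have hc2 : (1 - v * vᴴ)ᴴ = 1 - v * vᴴ := by
    rw [Matrix.conjTranspose_sub, Matrix.conjTranspose_one, Matrix.conjTranspose_mul,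
      Matrix.conjTranspose_conjTranspose]
  refine ⟨?_, ?_⟩
  · unfold Contr
    have key : 1 - (v + (1 - v * vᴴ) * w * (1 - e))ᴴ * (v + (1 - v * vᴴ) * w * (1 - e)) =
        (1 - e)ᴴ * (1 - wᴴ * w) * (1 - e) + (vᴴ * w * (1 - e))ᴴ * (vᴴ * w * (1 - e)) := by
      have e1 : (v + (1 - v * vᴴ) * w * (1 - e))ᴴ = vᴴ + (1 - e) * wᴴ * (1 - v * vᴴ) := by
        rw [Matrix.conjTranspose_add, Matrix.conjTranspose_mul, Matrix.conjTranspose_mul, hc1, hc2,
          mul_assoc]
      have e2 : (vᴴ + (1 - e) * wᴴ * (1 - v * vᴴ)) * (v + (1 - v * vᴴ) * w * (1 - e)) =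
          e + (1 - e) * wᴴ * (1 - v * vᴴ) * w * (1 - e) := by
        calc _ = vᴴ * v + (vᴴ * (1 - v * vᴴ)) * w * (1 - e) +
              (1 - e) * wᴴ * ((1 - v * vᴴ) * v) +
              (1 - e) * wᴴ * ((1 - v * vᴴ) * (1 - v * vᴴ)) * w * (1 - e) := by
              noncomm_ring
          _ = _ := by rw [hv, h1, h2, h3]; simp
      have e3 : (vᴴ * w * (1 - e))ᴴ = (1 - e) * wᴴ * v := by
        rw [Matrix.conjTranspose_mul, Matrix.conjTranspose_mul, hc1,
          Matrix.conjTranspose_conjTranspose, mul_assoc]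
      rw [e1, e2, e3, hc1]
      calc 1 - (e + (1 - e) * wᴴ * (1 - v * vᴴ) * w * (1 - e)) =
          (1 - e) - (1 - e) * wᴴ * (1 - v * vᴴ) * w * (1 - e) := by abel
        _ = (1 - e) * (1 - e) - (1 - e) * wᴴ * (1 - v * vᴴ) * w * (1 - e) := by rw [h4]
        _ = _ := by noncomm_ring
    rw [key]
    exact (hw.conjTranspose_mul_mul_same (1 - e)).add
      (Matrix.posSemidef_conjTranspose_mul_self _)
  · intro x y q hxq hyq hwx
    have hwe : w * e = v := by
      rw [hxq, ← Matrix.mul_assoc, hwx, ← hyq]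
    have hPe : e * (1 - wᴴ * w) * e = 0 := by
      have : e * (1 - wᴴ * w) * e = e * e - (w * e)ᴴ * (w * e) := by
        rw [Matrix.conjTranspose_mul, he]; noncomm_ring
      rw [this, hwe, hv, hee, sub_self]
    have hPe' : (1 - wᴴ * w) * e = 0 := by
      refine Matrix.ext fun i j => ?_
      have hz : star (e.mulVec (Pi.single j 1)) ⬝ᵥ
          (1 - wᴴ * w).mulVec (e.mulVec (Pi.single j 1)) = 0 := by
        rw [Matrix.star_mulVec, ← Matrix.dotProduct_mulVec, he, Matrix.mulVec_mulVec,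
          Matrix.mulVec_mulVec, hPe, Matrix.zero_mulVec, dotProduct_zero]
      have h := (hw.dotProduct_mulVec_zero_iff (e.mulVec (Pi.single j 1))).mp hz
      rw [Matrix.mulVec_mulVec] at h
      have h' := congrFun h i
      simpa using h'
    have h5 : wᴴ * v = e := by
      rw [← hwe, ← mul_assoc]
      rw [sub_mul, one_mul, sub_eq_zero] at hPe'
      exact hPe'.symm
    have h6 : vᴴ * w = e := by
      have := congrArg Matrix.conjTranspose h5
      rwa [Matrix.conjTranspose_mul, Matrix.conjTranspose_conjTranspose, he] at this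
    calc v + (1 - v * vᴴ) * w * (1 - e) = v + w - w * e - v * ((vᴴ * w) * (1 - e)) := by
          noncomm_ring
      _ = w := by
          rw [h6, hwe, mul_sub, mul_one, hee, sub_self, mul_zero, sub_zero]; abel

end Pool.Agent.R841.TC
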