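import Pool.Agent.R841.TC.Stm

/-!
# TC-EXT : cozero sets of F-spaces are C*-embedded (real case)
-/

namespace Pool.Agent.R841.TC

open Filter Topology

universe u

lemma ext_step {X : Type u} [TopologicalSpace X] (hX : FSpace X) (φ : C(X, ℝ)) (w : X → ℝ)
    (hw : ContinuousOn w {x | φ x ≠ 0}) (c : ℝ) (hc : 0 ≤ c) (hb : ∀ x, φ x ≠ 0 → |w x| ≤ c) :
    ∃ g : C(X, ℝ), (∀ x, |g x| ≤ 1) ∧ ∀ x, φ x ≠ 0 → |w x - c / 3 * g x| ≤ 2 * c / 3 := by
  classical
  have hO : IsOpen {x | φ x ≠ 0} := isOpen_ne_fun φ.continuous continuous_const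
  set f : X → ℝ := fun x => |φ x| * (if φ x ≠ 0 then w x else 0) with hf
  have hfb : ∀ x, |f x| ≤ c * |φ x| := by
    intro x
    simp only [hf]
    rw [abs_mul, abs_abs]
    by_cases h : φ x = 0
    · simp [h]
    · rw [if_pos h, mul_comm]
      exact mul_le_mul_of_nonneg_right (hb x h) (abs_nonneg _)
  have hfc : Continuous f := by
    rw [continuous_iff_continuousAt]
    intro x
    by_cases h : φ x = 0
    · have h0 : f x = 0 := by simp [hf, h]
      unfold ContinuousAt
      rw [h0]
      apply squeeze_zero_norm (a := fun y => c * |φ y|)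
      · intro y
        rw [Real.norm_eq_abs]
        exact hfb y
      · have : Tendsto (fun y => c * |φ y|) (𝓝 x) (𝓝 (c * |φ x|)) :=
          (continuous_const.mul φ.continuous.abs).continuousAt
        rw [h, abs_zero, mul_zero] at this
        exact this
    · have h1 : ContinuousAt (fun y => |φ y| * w y) x :=
        φ.continuous.abs.continuousAt.mul (hw.continuousAt (hO.mem_nhds h))
      refine h1.congr ?_
      filter_upwards [hO.mem_nhds h] with y hy
      simp only [hf]
      rw [if_pos hy]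
  obtain ⟨g0, hg0⟩ := hX ⟨f, hfc⟩
  simp only [ContinuousMap.coe_mk] at hg0
  refine ⟨⟨fun x => max (-1) (min 1 (g0 x)), by fun_prop⟩, ?_, ?_⟩
  · intro x
    simp only [ContinuousMap.coe_mk]
    rw [abs_le]
    exact ⟨le_max_left _ _, max_le (by norm_num) (min_le_left _ _)⟩
  · intro x hx
    simp only [ContinuousMap.coe_mk]
    have hφ : 0 < |φ x| := abs_pos.2 hx
    have hfx : f x = |φ x| * w x := by
      simp only [hf]
      rw [if_pos hx]
    have hbx := abs_le.1 (hb x hx)
    have hgx := hg0 x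
    rcases lt_trichotomy (w x) 0 with h | h | h
    · have hneg : f x < 0 := by
        rw [hfx]
        exact mul_neg_of_pos_of_neg hφ h
      rw [abs_of_neg hneg] at hgx
      have h1 : g0 x = -1 := by
        have h2 : (g0 x + 1) * f x = 0 := by linarith
        rcases mul_eq_zero.1 h2 with h3 | h3
        · linarith
        · exact absurd h3 hneg.ne
      rw [h1]
      norm_num
      rw [abs_le]
      constructor <;> linarith
    · rw [h, zero_sub, abs_neg, abs_mul, abs_of_nonneg (by positivity : (0 : ℝ) ≤ c / 3)]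
      have h1 : |max (-1) (min 1 (g0 x))| ≤ 1 := by
        rw [abs_le]
        exact ⟨le_max_left _ _, max_le (by norm_num) (min_le_left _ _)⟩
      nlinarith
    · have hpos : 0 < f x := by
        rw [hfx]
        exact mul_pos hφ h
      rw [abs_of_pos hpos] at hgx
      have h1 : g0 x = 1 := by
        have h2 : (g0 x - 1) * f x = 0 := by linarith
        rcases mul_eq_zero.1 h2 with h3 | h3
        · linarith
        · exact absurd h3 hpos.ne'
      rw [h1]
      norm_num
      rw [abs_le]
      constructor <;> linarith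

theorem ext : S_EXT.{u} := by
  classical
  intro X _ hX φ w hw hb
  have step : ∀ (n : ℕ) (h : C(X, ℝ)), ∃ h' : C(X, ℝ),
      (∀ x, |h' x - h x| ≤ 1 / 3 * (2 / 3) ^ n) ∧
      ((∀ x, φ x ≠ 0 → |w x - h x| ≤ (2 / 3) ^ n) →
        ∀ x, φ x ≠ 0 → |w x - h' x| ≤ (2 / 3) ^ (n + 1)) := by
    intro n h
    by_cases hh : ∀ x, φ x ≠ 0 → |w x - h x| ≤ (2 / 3) ^ n
    · obtain ⟨g, hg1, hg2⟩ := ext_step hX φ (fun x => w x - h x)
        (hw.sub h.continuous.continuousOn) ((2 / 3) ^ n) (by positivity) hh
      refine ⟨h + (((2 / 3 : ℝ) ^ n / 3) • g), ?_, fun _ x hx => ?_⟩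
      · intro x
        simp only [ContinuousMap.add_apply, ContinuousMap.smul_apply, smul_eq_mul,
          add_sub_cancel_left]
        rw [abs_mul, abs_of_nonneg (by positivity : (0 : ℝ) ≤ (2 / 3) ^ n / 3)]
        have h1 := hg1 x
        have h2 : (0 : ℝ) ≤ (2 / 3) ^ n / 3 := by positivity
        nlinarith
      · have h1 := hg2 x hx
        simp only [ContinuousMap.add_apply, ContinuousMap.smul_apply, smul_eq_mul]
        rw [pow_succ]
        have e : w x - (h x + (2 / 3) ^ n / 3 * g x) = w x - h x - (2 / 3) ^ n / 3 * g x := by ring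
        rw [e]
        refine h1.trans (le_of_eq ?_)
        ring
    · refine ⟨h, fun x => ?_, fun h0 => absurd h0 hh⟩
      rw [sub_self, abs_zero]
      positivity
  choose S hS1 hS2 using step
  let H : ℕ → C(X, ℝ) := fun n => Nat.rec 0 (fun n h => S n h) n
  have H0 : H 0 = 0 := rfl
  have Hs : ∀ n, H (n + 1) = S n (H n) := fun n => rfl
  have hH : ∀ n, ∀ x, φ x ≠ 0 → |w x - H n x| ≤ (2 / 3) ^ n := by
    intro n
    induction n with
    | zero =>
      intro x _
      rw [H0]
      simpa using hb x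
    | succ n ih =>
      rw [Hs]
      exact hS2 n (H n) ih
  have hd : ∀ n x, ‖H (n + 1) x - H n x‖ ≤ 1 / 3 * (2 / 3) ^ n := by
    intro n x
    rw [Real.norm_eq_abs, Hs]
    exact hS1 n (H n) x
  have hsum : Summable (fun n : ℕ => (1 / 3 : ℝ) * (2 / 3) ^ n) :=
    (summable_geometric_of_lt_one (by norm_num) (by norm_num)).mul_left _
  refine ⟨⟨fun x => ∑' n, (H (n + 1) x - H n x), continuous_tsum
    (fun n => (H (n + 1)).continuous.sub (H n).continuous) hsum hd⟩, ?_⟩
  intro x hx
  simp only [ContinuousMap.coe_mk]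
  have h1 : Summable (fun n => H (n + 1) x - H n x) :=
    Summable.of_norm_bounded hsum (fun n => hd n x)
  have h2 := h1.hasSum.tendsto_sum_nat
  have h3 : ∀ n, ∑ i ∈ Finset.range n, (H (i + 1) x - H i x) = H n x := by
    intro n
    rw [Finset.sum_range_sub (fun i => H i x), H0]
    simp
  simp only [h3] at h2
  have h4 : Tendsto (fun n => H n x) atTop (𝓝 (w x)) := by
    rw [tendsto_iff_norm_sub_tendsto_zero]
    refine squeeze_zero (fun _ => norm_nonneg _) (fun n => ?_)
      (tendsto_pow_atTop_nhds_zero_of_lt_one (by norm_num : (0 : ℝ) ≤ 2 / 3) (by norm_num))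
    rw [Real.norm_eq_abs, abs_sub_comm]
    exact hH n x hx
  exact tendsto_nhds_unique h2 h4

end Pool.Agent.R841.TC
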