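import Pool.Agent.R841.TC.StmG

set_option autoImplicit false

/-!
# TC-GCS: matrices over a C*-algebra (helper586)
-/

namespace Pool.Agent.R841.TC

open Matrix

universe u

namespace GCSAux

theorem sumsq (B : Type u) [CStarAlgebra B] (m : ℕ) (c : Fin m → B) :
    ∃ d : B, ∑ i, star (c i) * c i = star d * d := by
  let _ : PartialOrder B := CStarAlgebra.spectralOrder B
  have _ : StarOrderedRing B := CStarAlgebra.spectralOrderedRing B
  have h0 : 0 ≤ ∑ i, star (c i) * c i := Finset.sum_nonneg fun i _ => star_mul_self_nonneg _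
  exact CStarAlgebra.nonneg_iff_eq_star_mul_self.1 h0

theorem prop (B : Type u) [CStarAlgebra B] (m : ℕ) (c : Fin m → B)
    (hc : ∑ i, star (c i) * c i = 0) (i : Fin m) : c i = 0 := by
  let _ : PartialOrder B := CStarAlgebra.spectralOrder B
  have _ : StarOrderedRing B := CStarAlgebra.spectralOrderedRing B
  have h2 := (Finset.sum_eq_zero_iff_of_nonneg
    (fun i _ => star_mul_self_nonneg (c i))).1 hc i (Finset.mem_univ i)
  exact (CStarRing.star_mul_self_eq_zero_iff _).1 h2

end GCSAux

theorem gcs : S_GCS.{u} := by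
  intro A _ n
  let _ : PartialOrder A := CStarAlgebra.spectralOrder A
  have _ : StarOrderedRing A := CStarAlgebra.spectralOrderedRing A
  constructor
  · intro m c
    exact GCSAux.sumsq (CStarMatrix (Fin n) (Fin n) A) m c
  · intro m c hc i
    exact GCSAux.prop (CStarMatrix (Fin n) (Fin n) A) m c hc i

end Pool.Agent.R841.TC
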