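import Pool.Agent.R841.TC.StmG

/-!
# TC-GISO: transport along star isomorphisms, and matrices of matrices
-/

namespace Pool.Agent.R841.TC

open Matrix

universe u

namespace GISO

theorem matPos_map {B C : Type u} [Ring B] [StarRing B] [Ring C] [StarRing C] (φ : B ≃⋆+* C)
    {m : ℕ} {M : Matrix (Fin m) (Fin m) B} (h : MatPos M) : MatPos (M.map φ) := by
  obtain ⟨N, rfl⟩ := h
  refine ⟨N.map φ, ?_⟩
  ext i j
  simp only [Matrix.map_apply, Matrix.mul_apply, Matrix.conjTranspose_apply]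
  rw [map_sum]
  refine Finset.sum_congr rfl fun k _ => ?_
  rw [map_mul, map_star]

theorem ptc_iso {B C : Type u} [Ring B] [StarRing B] [Ring C] [StarRing C] (φ : B ≃⋆+* C)
    (h : PTC B) : PTC C := by
  intro k n hk hkn a ha
  obtain ⟨y, hy, hp⟩ := h k n hk hkn (fun l => φ.symm (a l)) (by
    have h1 := matPos_map φ.symm ha
    exact h1)
  refine ⟨fun l => φ (y l), fun l hl => ?_, ?_⟩
  · change φ (y l) = a l
    rw [hy l hl]
    exact φ.apply_symm_apply _
  · have h1 := matPos_map φ hp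
    exact h1

theorem wpol_iso {B C : Type u} [Ring B] [StarRing B] [Ring C] [StarRing C] (φ : B ≃⋆+* C)
    (h : WPol B) : WPol C := by
  intro x y hxy
  obtain ⟨v, d, hv, hd⟩ := h (φ.symm x) (φ.symm y) (by
    rw [← map_star, ← map_star, ← map_mul, ← map_mul, hxy])
  refine ⟨φ v, φ d, ?_, ?_⟩
  · have h1 := congrArg φ hv
    rw [map_mul, φ.apply_symm_apply, φ.apply_symm_apply] at h1
    exact h1
  · have h1 := congrArg φ hd
    rw [map_sub, map_one, map_mul, map_mul, map_star, map_star] at h1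
    exact h1

theorem sumSq_iso {B C : Type u} [Ring B] [StarRing B] [Ring C] [StarRing C] (φ : B ≃⋆+* C)
    (h : SumSq B) : SumSq C := by
  intro m c
  obtain ⟨d, hd⟩ := h m fun i => φ.symm (c i)
  refine ⟨φ d, ?_⟩
  have h1 := congrArg φ hd
  rw [map_sum, map_mul, map_star] at h1
  rw [← h1]
  refine Finset.sum_congr rfl fun i _ => ?_
  rw [map_mul, map_star, φ.apply_symm_apply]

/-- matrices of matrices -/
noncomputable def mm (A : Type u) [Ring A] [StarRing A] (m n : ℕ) :
    Matrix (Fin m) (Fin m) (Matrix (Fin n) (Fin n) A) ≃⋆+*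
      Matrix (Fin (m * n)) (Fin (m * n)) A :=
  { (Matrix.compRingEquiv (Fin m) (Fin n) A).trans
      (Matrix.reindexRingEquiv A finProdFinEquiv) with
    map_star' := fun M => by
      ext i j
      rfl }

end GISO

open GISO

theorem giso : S_GISO.{u} := by
  refine ⟨fun B C _ _ _ _ hφ => ?_, fun A _ _ m n => ⟨mm A m n⟩⟩
  obtain ⟨φ⟩ := hφ
  exact ⟨ptc_iso φ, wpol_iso φ, sumSq_iso φ⟩

end Pool.Agent.R841.TC
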