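import Pool.Agent.R841.TC.StmG

/-! Piece GMAIN of project TC. -/

namespace Pool.Agent.R841.TC

open Matrix

universe u

theorem wpol_zero (B : Type u) [Ring B] [StarRing B] : WPol (Matrix (Fin 0) (Fin 0) B) := by
  intro x y _
  exact ⟨0, 0, Subsingleton.elim _ _, Subsingleton.elim _ _⟩

theorem gmain : S_GMAIN.{u} := by
  intro hCS hNEC hSUF hISO A _
  constructor
  · intro h n hn
    obtain ⟨e⟩ := hISO.2 A 2 n
    have h1 : PTC (Matrix (Fin (2 * n)) (Fin (2 * n)) A) := h (2 * n) (by omega)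
    have h2 : PTC (Matrix (Fin 2) (Fin 2) (Matrix (Fin n) (Fin n) A)) :=
      (hISO.1 _ _ ⟨e.symm⟩).1 h1
    exact hNEC _ (hCS A n).1 (hCS A n).2 h2
  · intro h n hn
    refine hSUF _ (fun m => ?_) (fun k => ?_)
    · obtain ⟨e⟩ := hISO.2 A m n
      exact (hISO.1 _ _ ⟨e.symm⟩).2.2 (hCS A (m * n)).1
    · rcases Nat.eq_zero_or_pos k with hk | hk
      · subst hk
        exact wpol_zero _
      · obtain ⟨e⟩ := hISO.2 A k n
        exact (hISO.1 _ _ ⟨e.symm⟩).2.1 (h (k * n) (Nat.mul_pos hk hn))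

end Pool.Agent.R841.TC
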