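import Pool.Agent.R841.TC.StmG

/-! TC-GNEC -/

namespace Pool.Agent.R841.TC

open Matrix

universe u

namespace GNEC

variable {B : Type u} [Ring B] [StarRing B] {ι : Type} [Fintype ι]

/-- the inner product -/
def ip (f g : ι → B) : B := ∑ t, star (f t) * g t

theorem ip_right (f g h : ι → B) (x : B) :
    ip f (fun t => g t - h t * x) = ip f g - ip f h * x := by
  simp only [ip, mul_sub, Finset.sum_sub_distrib, Finset.sum_mul, mul_assoc]

theorem ip_left (f g h : ι → B) (x : B) :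
    ip (fun t => g t - h t * x) f = ip g f - star x * ip h f := by
  simp only [ip, star_sub, star_mul, sub_mul, Finset.sum_sub_distrib, Finset.mul_sum, mul_assoc]

theorem star_ip (f g : ι → B) : star (ip f g) = ip g f := by
  simp only [ip, star_sum, star_mul, star_star]

theorem prop6 (hP : Prop' B) (c : Fin 3 × Fin 2 → B) (h : ip c c = 0) : ∀ t, c t = 0 := by
  have h1 : ∑ i : Fin (3 * 2), star (c (finProdFinEquiv.symm i)) * c (finProdFinEquiv.symm i) = 0 := by
    rw [Equiv.sum_comp finProdFinEquiv.symm (fun t => star (c t) * c t)]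
    exact h
  intro t
  have := hP _ _ h1 (finProdFinEquiv t)
  simpa using this

theorem sq6 (hS : SumSq B) (c : Fin 3 × Fin 2 → B) : ∃ d : B, ip c c = star d * d := by
  obtain ⟨d, hd⟩ := hS (3 * 2) (fun i => c (finProdFinEquiv.symm i))
  refine ⟨d, ?_⟩
  rw [← hd, Equiv.sum_comp finProdFinEquiv.symm (fun t => star (c t) * c t)]
  rfl

end GNEC

open GNEC

theorem gnec : S_GNEC.{u} := by
  intro B _ _ hS hP hT x y hxy
  obtain ⟨V1, hV1⟩ : ∃ V : Matrix (Fin 2) (Fin 2) B, V = !![0, x; 1, 0] := ⟨_, rfl⟩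
  obtain ⟨V2, hV2⟩ : ∃ V : Matrix (Fin 2) (Fin 2) B, V = !![1, 0; 0, y] := ⟨_, rfl⟩
  have h11 : V1ᴴ * V1 = !![1, 0; 0, star y * y] := by
    rw [hV1, ← hxy]
    ext i j
    fin_cases i <;> fin_cases j <;> simp [Matrix.mul_apply, Fin.sum_univ_two]
  have h22 : V2ᴴ * V2 = !![1, 0; 0, star y * y] := by
    rw [hV2]
    ext i j
    fin_cases i <;> fin_cases j <;> simp [Matrix.mul_apply, Fin.sum_univ_two]
  have h21 : V2ᴴ * V1 = !![0, x; star y, 0] := by
    rw [hV1, hV2]
    ext i j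
    fin_cases i <;> fin_cases j <;> simp [Matrix.mul_apply, Fin.sum_univ_two]
  have h12 : V1ᴴ * V2 = !![0, y; star x, 0] := by
    rw [hV1, hV2]
    ext i j
    fin_cases i <;> fin_cases j <;> simp [Matrix.mul_apply, Fin.sum_univ_two]
  obtain ⟨a, ha⟩ : ∃ a : ℤ → Matrix (Fin 2) (Fin 2) B, a = fun l =>
    if l = 0 then !![1, 0; 0, star y * y] else if l = 1 then !![0, x; star y, 0]
    else !![0, y; star x, 0] := ⟨_, rfl⟩
  have ha0 : a 0 = !![1, 0; 0, star y * y] := by rw [ha]; simp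
  have ha1 : a 1 = !![0, x; star y, 0] := by rw [ha]; simp
  have ham : a (-1) = !![0, y; star x, 0] := by rw [ha]; simp
  have hpos : MatPos (Matrix.of fun i j : Fin 2 => a ((i : ℤ) - (j : ℤ))) := by
    refine ⟨!![V1, V2; 0, 0], ?_⟩
    have key : ∀ i j : Fin 2, a ((i : ℤ) - (j : ℤ)) = (!![V1, V2; 0, 0]ᴴ * !![V1, V2; 0, 0]) i j := by
      intro i j
      rw [Matrix.mul_apply, Fin.sum_univ_two]
      simp only [Matrix.conjTranspose_apply]
      fin_cases i <;> fin_cases j
      · show a (0 - 0) = star V1 * V1 + star 0 * 0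
        rw [sub_zero, ha0, mul_zero, add_zero]
        exact h11.symm
      · show a (0 - 1) = star V1 * V2 + star 0 * 0
        rw [zero_sub, ham, mul_zero, add_zero]
        exact h12.symm
      · show a (1 - 0) = star V2 * V1 + star 0 * 0
        rw [sub_zero, ha1, mul_zero, add_zero]
        exact h21.symm
      · show a (1 - 1) = star V2 * V2 + star 0 * 0
        rw [sub_self, ha0, mul_zero, add_zero]
        exact h22.symm
    funext i j
    exact key i j
  obtain ⟨Y, hY, C, hC⟩ := hT 2 3 (by norm_num) (by norm_num) a hpos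
  have hY0 : Y 0 = !![1, 0; 0, star y * y] := by rw [hY 0 (by norm_num), ha0]
  have hY1 : Y 1 = !![0, x; star y, 0] := by rw [hY 1 (by norm_num), ha1]
  have hYm : Y (-1) = !![0, y; star x, 0] := by rw [hY (-1) (by norm_num), ham]
  obtain ⟨b, hb⟩ : ∃ b : Fin 3 → Fin 2 → (Fin 3 × Fin 2 → B), b = fun i c t => C t.1 i t.2 c :=
    ⟨_, rfl⟩
  have hip : ∀ (i j : Fin 3) (c d : Fin 2), ip (b i c) (b j d) = Y ((i : ℤ) - (j : ℤ)) c d := by
    intro i j c d
    have h1 : Y ((i : ℤ) - (j : ℤ)) = (Cᴴ * C) i j := by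
      rw [← hC]; rfl
    rw [h1, Matrix.mul_apply, Matrix.sum_apply, hb, ip, Fintype.sum_prod_type]
    apply Finset.sum_congr rfl
    intro r _
    rw [Matrix.conjTranspose_apply, Matrix.star_eq_conjTranspose, Matrix.mul_apply]
    rfl
  have e1 : ip (b 2 0) (b 1 1) = x := by rw [hip]; simp [hY1]
  have e2 : ip (b 1 1) (b 1 1) = star y * y := by rw [hip]; simp [hY0]
  have e3 : ip (b 2 0) (b 2 0) = 1 := by rw [hip]; simp [hY0]
  have e4 : ip (b 0 0) (b 1 1) = y := by rw [hip]; simp [hYm]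
  have e5 : ip (b 0 0) (b 0 0) = 1 := by rw [hip]; simp [hY0]
  have e6 : ip (b 1 1) (b 2 0) = star x := by rw [← star_ip, e1]
  have e7 : ip (b 1 1) (b 0 0) = star y := by rw [← star_ip, e4]
  have f2 : ∀ t, b 1 1 t = b 0 0 t * y := by
    intro t
    have h1 := prop6 hP (fun t => b 1 1 t - b 0 0 t * y) (by
      rw [ip_right, ip_left, ip_left, e2, e4, e5, e7]
      simp) t
    exact sub_eq_zero.1 h1
  have hv : x = ip (b 2 0) (b 0 0) * y := by
    have h1 : ip (b 2 0) (b 1 1) = ip (b 2 0) (b 0 0) * y := by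
      have h2 : b 1 1 = fun t => b 0 0 t * y := funext f2
      rw [h2]
      simp only [ip, Finset.sum_mul, mul_assoc]
    rw [← h1, e1]
  obtain ⟨d, hd⟩ := sq6 hS (fun t => b 0 0 t - b 2 0 t * ip (b 2 0) (b 0 0))
  refine ⟨ip (b 2 0) (b 0 0), d, hv, ?_⟩
  rw [← hd, ip_right, ip_left, ip_left, e5, e3, ← star_ip (b 2 0) (b 0 0)]
  simp

end Pool.Agent.R841.TC
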