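import Pool.Agent.R841.TC.Stm

/-!
# The pointwise computation behind the necessity (piece GRAM)
-/

namespace Pool.Agent.R841.TC

open Matrix
open scoped ComplexOrder

namespace GramAux

/-- the column with index `(i, c)` -/
def gvec {N : ℕ} (B : Matrix (Fin 3) (Fin 3) (Matrix (Fin N) (Fin N) ℂ)) (i : Fin 3) (c : Fin N) :
    Fin 3 × Fin N → ℂ := fun rs => B rs.1 i rs.2 c

theorem entry {N : ℕ} (B : Matrix (Fin 3) (Fin 3) (Matrix (Fin N) (Fin N) ℂ)) (i j : Fin 3)
    (c d : Fin N) : (Bᴴ * B) i j c d = star (gvec B i c) ⬝ᵥ gvec B j d := by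
  rw [Matrix.mul_apply, Matrix.sum_apply]
  simp only [dotProduct, gvec, Fintype.sum_prod_type, Matrix.mul_apply, Matrix.conjTranspose_apply,
    Matrix.star_apply, Pi.star_apply]

theorem eq_smul {ι : Type} [Fintype ι] (u v : ι → ℂ) (a : ℝ) (h1 : star u ⬝ᵥ u = ((a ^ 2 : ℝ) : ℂ))
    (h2 : star v ⬝ᵥ v = 1) (h3 : star u ⬝ᵥ v = (a : ℂ)) : u = (a : ℂ) • v := by
  have h4 : star v ⬝ᵥ u = (a : ℂ) := by
    have h5 : star v ⬝ᵥ u = star (star u ⬝ᵥ v) := by
      rw [Matrix.star_dotProduct]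
    rw [h5, h3, Complex.star_def, Complex.conj_ofReal]
  have h6 : star (u - (a : ℂ) • v) ⬝ᵥ (u - (a : ℂ) • v) = 0 := by
    rw [star_sub, star_smul, sub_dotProduct, dotProduct_sub, dotProduct_sub,
      smul_dotProduct, smul_dotProduct, dotProduct_smul,
      dotProduct_smul, h1, h2, h3, h4, Complex.star_def, Complex.conj_ofReal]
    simp only [smul_eq_mul]
    push_cast
    ring
  have h7 := dotProduct_star_self_eq_zero.1 h6
  exact sub_eq_zero.1 h7

end GramAux

open GramAux in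
theorem gram : S_GRAM := by
  intro N h p q hpq B hp hq h10 h10' h21 h21'
  have e : gvec B 1 q = ((|h| : ℝ) : ℂ) • gvec B 0 p := by
    apply eq_smul
    · rw [← entry, hq 1, sq_abs]
    · rw [← entry, hp 0]
    · rw [← entry, h10']
  rw [entry] at h21 ⊢
  rw [e, dotProduct_smul, smul_eq_mul] at h21
  exact h21

end Pool.Agent.R841.TC
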