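import Pool.Agent.R841.TC.StmG

set_option autoImplicit false

namespace Pool.Agent.R841.TC

open Matrix

universe u

namespace GSUF

variable {B : Type u} [Ring B] [StarRing B] {k n : ℕ}

theorem tele (U : Matrix (Fin k) (Fin k) B) (i j : ℕ) : ∀ t : ℕ, t ≤ i → t ≤ j →
    ∑ m ∈ Finset.range (t + 1), (Uᴴ) ^ (i - m) * (if m = 0 then 1 else 1 - Uᴴ * U) * U ^ (j - m)
      = (Uᴴ) ^ (i - t) * U ^ (j - t) := by
  intro t
  induction t with
  | zero => intro _ _; simp
  | succ t ih =>
    intro h1 h2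
    rw [Finset.sum_range_succ, ih (by omega) (by omega)]
    have e1 : i - t = (i - (t + 1)) + 1 := by omega
    have e2 : j - t = (j - (t + 1)) + 1 := by omega
    rw [e1, e2, pow_succ (Uᴴ), pow_succ' U, if_neg (Nat.succ_ne_zero t)]
    noncomm_ring

/-- the general Gram matrix -/
theorem core (hk : 0 < k) (hkn : k < n) (a : ℤ → B) (Bm : Matrix (Fin k) (Fin k) B)
    (hT : (Matrix.of fun i j : Fin k => a ((i : ℤ) - (j : ℤ))) = Bmᴴ * Bm)
    (hW : ∀ x y : Matrix (Fin k) (Fin k) B, xᴴ * x = yᴴ * y →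
      ∃ U d : Matrix (Fin k) (Fin k) B, x = U * y ∧ 1 - Uᴴ * U = dᴴ * d)
    (hS : ∀ c : Fin n × Fin k → Matrix (Fin n) (Fin n) B,
      ∃ b : Matrix (Fin n) (Fin n) B, ∑ p, (c p)ᴴ * c p = bᴴ * b) :
    ∃ y : ℤ → B, (∀ l : ℤ, |l| < (k : ℤ) → y l = a l) ∧
      MatPos (Matrix.of fun i j : Fin n => y ((i : ℤ) - (j : ℤ))) := by
  have hn : 0 < n := by omega
  have hT' : ∀ i j : Fin k, ∑ r, star (Bm r i) * Bm r j = a ((i : ℤ) - (j : ℤ)) := by
    intro i j
    have := congrFun (congrFun hT i) j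
    rw [Matrix.mul_apply] at this
    simp only [Matrix.conjTranspose_apply, Matrix.of_apply] at this
    exact this.symm
  obtain ⟨U, d, hU, hd⟩ := hW
    (Matrix.of fun r j => if h : (j : ℕ) + 1 < k then Bm r ⟨(j : ℕ) + 1, h⟩ else 0)
    (Matrix.of fun r j => if (j : ℕ) + 1 < k then Bm r j else 0) (by
      ext i j
      rw [Matrix.mul_apply, Matrix.mul_apply]
      simp only [Matrix.conjTranspose_apply, Matrix.of_apply]
      by_cases hi : (i : ℕ) + 1 < k
      · by_cases hj : (j : ℕ) + 1 < k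
        · simp only [hi, hj, dif_pos, if_true]
          rw [hT', hT']
          congr 1
          push_cast
          ring
        · simp [hj]
      · simp [hi])
  -- columns
  set R0 : Matrix (Fin k) (Fin 1) B := Matrix.of fun r _ => Bm r ⟨0, hk⟩ with hR0
  have hcol : ∀ l : ℕ, ∀ hl : l < k, U ^ l * R0 = Matrix.of fun r _ => Bm r ⟨l, hl⟩ := by
    intro l
    induction l with
    | zero => intro hl; rw [pow_zero, Matrix.one_mul]
    | succ l ih =>
      intro hl
      rw [pow_succ', Matrix.mul_assoc, ih (by omega)]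
      ext r s
      rw [Matrix.mul_apply]
      simp only [Matrix.of_apply]
      have := congrFun (congrFun hU r) ⟨l, by omega⟩
      rw [Matrix.mul_apply] at this
      simp only [Matrix.of_apply] at this
      rw [dif_pos hl] at this
      rw [this]
      refine Finset.sum_congr rfl fun x _ => ?_
      rw [if_pos hl]
  set Y : ℤ → B := fun z => if 0 ≤ z then (R0ᴴ * (Uᴴ) ^ z.toNat * R0) 0 0
    else (R0ᴴ * U ^ (-z).toNat * R0) 0 0 with hY
  refine ⟨Y, ?_, ?_⟩
  · intro l hl
    rw [abs_lt] at hl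
    simp only [hY]
    by_cases h0 : 0 ≤ l
    · rw [if_pos h0]
      obtain ⟨m, rfl⟩ := Int.eq_ofNat_of_zero_le h0
      have hm : m < k := by omega
      have h1 : R0ᴴ * (Uᴴ) ^ m * R0 = (U ^ m * R0)ᴴ * R0 := by
        rw [Matrix.conjTranspose_mul, Matrix.conjTranspose_pow]
      rw [Int.toNat_natCast, h1, hcol m hm, Matrix.mul_apply]
      simp only [Matrix.conjTranspose_apply, Matrix.of_apply, hR0]
      rw [hT']
      congr 1
      try simp
    · rw [if_neg h0]
      obtain ⟨m, hm'⟩ := Int.eq_ofNat_of_zero_le (show 0 ≤ -l by omega)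
      have hlm : l = -(m : ℤ) := by omega
      subst hlm
      have hm : m < k := by omega
      rw [neg_neg, Int.toNat_natCast, Matrix.mul_assoc, hcol m hm, Matrix.mul_apply]
      simp only [Matrix.conjTranspose_apply, Matrix.of_apply, hR0]
      rw [hT']
      congr 1
      try simp
  · -- positivity
    set E : ℕ → Matrix (Fin k) (Fin k) B := fun m => if m = 0 then 1 else d with hE
    have hEE : ∀ m, (E m)ᴴ * E m = if m = 0 then 1 else 1 - Uᴴ * U := by
      intro m
      simp only [hE]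
      by_cases h : m = 0
      · simp [h]
      · simp [h, hd]
    set G : ℕ → ℕ → Matrix (Fin k) (Fin 1) B := fun m j => if m ≤ j then E m * U ^ (j - m) * R0 else 0
      with hG
    obtain ⟨b, hb⟩ := hS (fun p => Matrix.of fun i j => if (i : ℕ) = 0 then G (p.1 : ℕ) (j : ℕ) p.2 0 else 0)
    refine ⟨b, ?_⟩
    rw [← hb]
    ext i j
    rw [Matrix.sum_apply]
    have hterm : ∀ p : Fin n × Fin k,
        ((Matrix.of fun (i : Fin n) (j : Fin n) => if (i : ℕ) = 0 then G (p.1 : ℕ) (j : ℕ) p.2 0 else 0)ᴴ *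
          (Matrix.of fun (i : Fin n) (j : Fin n) => if (i : ℕ) = 0 then G (p.1 : ℕ) (j : ℕ) p.2 0 else 0)) i j
        = star (G (p.1 : ℕ) (i : ℕ) p.2 0) * G (p.1 : ℕ) (j : ℕ) p.2 0 := by
      intro p
      rw [Matrix.mul_apply]
      rw [Finset.sum_eq_single (⟨0, hn⟩ : Fin n)]
      · simp [Matrix.conjTranspose_apply]
      · intro q _ hq
        have : (q : ℕ) ≠ 0 := fun h => hq (Fin.ext h)
        simp [Matrix.conjTranspose_apply, this]
      · intro h; exact absurd (Finset.mem_univ _) h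
    rw [Finset.sum_congr rfl fun p _ => hterm p, Fintype.sum_prod_type]
    have hinner : ∀ m : Fin n, ∑ r : Fin k, star (G (m : ℕ) (i : ℕ) r 0) * G (m : ℕ) (j : ℕ) r 0
        = ((G (m : ℕ) (i : ℕ))ᴴ * G (m : ℕ) (j : ℕ)) 0 0 := by
      intro m
      rw [Matrix.mul_apply]
      simp only [Matrix.conjTranspose_apply]
    rw [Finset.sum_congr rfl fun m _ => hinner m]
    have hsum : ∑ m : Fin n, (G (m : ℕ) (i : ℕ))ᴴ * G (m : ℕ) (j : ℕ)
        = R0ᴴ * ((Uᴴ) ^ ((i : ℕ) - min (i : ℕ) (j : ℕ)) * U ^ ((j : ℕ) - min (i : ℕ) (j : ℕ))) * R0 := by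
      rw [← tele U i j (min (i : ℕ) (j : ℕ)) (min_le_left _ _) (min_le_right _ _)]
      rw [Matrix.mul_sum, Matrix.sum_mul]
      rw [Finset.sum_fin_eq_sum_range]
      rw [← Finset.sum_subset (s₁ := Finset.range (min (i : ℕ) (j : ℕ) + 1)) (s₂ := Finset.range n)]
      · refine Finset.sum_congr rfl fun m hm => ?_
        rw [Finset.mem_range] at hm
        have hmi : m ≤ (i : ℕ) := le_trans (Nat.lt_succ_iff.1 hm) (min_le_left _ _)
        have hmj : m ≤ (j : ℕ) := le_trans (Nat.lt_succ_iff.1 hm) (min_le_right _ _)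
        have hmn : m < n := lt_of_le_of_lt hmi i.2
        rw [dif_pos hmn]
        simp only [hG, if_pos hmi, if_pos hmj]
        rw [← hEE m, Matrix.conjTranspose_mul, Matrix.conjTranspose_mul, Matrix.conjTranspose_pow]
        simp only [Matrix.mul_assoc]
      · intro m hm
        rw [Finset.mem_range] at hm ⊢
        have : m ≤ (i : ℕ) := le_trans (Nat.lt_succ_iff.1 hm) (min_le_left _ _)
        exact lt_of_le_of_lt this i.2
      · intro m hm hm2
        rw [Finset.mem_range] at hm hm2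
        rw [dif_pos hm]
        have hmin : min (i : ℕ) (j : ℕ) < m := by omega
        rcases min_lt_iff.1 hmin with h | h
        · simp only [hG, if_neg (not_le.2 h), Matrix.conjTranspose_zero, Matrix.zero_mul]
        · simp only [hG, if_neg (not_le.2 h), Matrix.mul_zero]
    rw [← Matrix.sum_apply, hsum]
    simp only [Matrix.of_apply, hY]
    by_cases hij : (j : ℕ) ≤ (i : ℕ)
    · rw [if_pos (by omega), min_eq_right hij]
      have e1 : ((i : ℤ) - (j : ℤ)).toNat = (i : ℕ) - (j : ℕ) := by omega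
      rw [e1, Nat.sub_self, pow_zero, Matrix.mul_one]
    · rw [if_neg (by omega), min_eq_left (by omega)]
      have e1 : (-((i : ℤ) - (j : ℤ))).toNat = (j : ℕ) - (i : ℕ) := by omega
      rw [e1, Nat.sub_self, pow_zero, Matrix.one_mul]

end GSUF

theorem gsuf : S_GSUF.{u} := by
  intro B _ _ hS hW k n hk hkn a hT
  obtain ⟨Bm, hBm⟩ := hT
  refine GSUF.core hk hkn a Bm hBm (fun x y h => ?_) (fun c => ?_)
  · obtain ⟨v, d, h1, h2⟩ := hW k x y (by simpa only [Matrix.star_eq_conjTranspose] using h)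
    exact ⟨v, d, h1, by simpa only [Matrix.star_eq_conjTranspose] using h2⟩
  · obtain ⟨b, hb⟩ := hS n (n * k) (fun i => c (finProdFinEquiv.symm i))
    refine ⟨b, ?_⟩
    rw [← Matrix.star_eq_conjTranspose, ← hb]
    rw [← finProdFinEquiv.symm.sum_comp]
    simp only [Matrix.star_eq_conjTranspose]

end Pool.Agent.R841.TC
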