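import Pool.Agent.R841.TC.Stm

/-!
# The main induction over the rank strata
-/

namespace Pool.Agent.R841.TC

open Matrix Topology
open scoped ComplexOrder

universe u

namespace IND

variable {X : Type u} [TopologicalSpace X] {ι κ : Type} [Fintype ι] [DecidableEq ι] [Fintype κ]
  [DecidableEq κ]

section

attribute [local irreducible] phi EE

omit [DecidableEq ι] in
theorem cont_ee (hP : S_PHI) (j : ℕ) (x y : X → Matrix ι κ ℂ) (hx : Continuous x)
    (hy : Continuous y) :
    ContinuousOn (fun p => ee j (x p) (y p)) {p | phi j (x p) ≠ 0} := by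
  have h4 : Continuous fun x : Matrix ι κ ℂ => phi j x := (hP ι κ).2.2.2.1 j
  have h5 : Continuous fun p : Matrix ι κ ℂ × Matrix ι κ ℂ => EE j p.1 p.2 := (hP ι κ).2.2.2.2 j
  have h1 : Continuous fun p => EE j (x p) (y p) := Continuous.comp h5 (hx.prodMk hy)
  have h2 : Continuous fun p => phi j (x p) := Continuous.comp h4 hx
  have h3 : ContinuousOn (fun p => (phi j (x p))⁻¹) {p | phi j (x p) ≠ 0} :=
    ContinuousOn.inv₀ h2.continuousOn fun p hp => hp
  have h6 : ContinuousOn (fun p => (((phi j (x p))⁻¹ : ℝ) : ℂ)) {p | phi j (x p) ≠ 0} :=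
    Complex.continuous_ofReal.comp_continuousOn h3
  have h7 : ContinuousOn (fun p => (((phi j (x p))⁻¹ : ℝ) : ℂ) • EE j (x p) (y p))
      {p | phi j (x p) ≠ 0} := ContinuousOn.smul h6 h1.continuousOn
  unfold ee
  exact h7

end

theorem glue {Y : Type*} [TopologicalSpace Y] (O O' : Set X) (hO' : IsOpen O')
    (W D U : X → Y) (hW : Continuous W) (hD : ContinuousOn D O)
    (hU1 : ∀ p ∈ O', U p = W p) (hU2 : ∀ p, p ∉ O' → U p = D p)
    (hWD : ∀ p ∈ O, p ∉ O' → p ∈ closure O' → D p = W p) : ContinuousOn U O := by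
  intro p hp
  by_cases h1 : p ∈ O'
  · have h2 : U =ᶠ[𝓝 p] W := by
      filter_upwards [hO'.mem_nhds h1] with q hq using hU1 q hq
    exact (hW.continuousAt.congr h2.symm).continuousWithinAt
  · by_cases h2 : p ∈ closure O'
    · have h3 : D p = W p := hWD p hp h1 h2
      have hDp : Filter.Tendsto D (𝓝[O] p) (𝓝 (D p)) := hD p hp
      have hWp : Filter.Tendsto W (𝓝[O] p) (𝓝 (D p)) := by
        rw [h3]
        exact hW.continuousAt.continuousWithinAt
      unfold ContinuousWithinAt
      rw [hU2 p h1]
      intro N hN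
      have e1 := hDp hN
      have e2 := hWp hN
      rw [Filter.mem_map] at e1 e2 ⊢
      filter_upwards [e1, e2] with q g1 g2
      by_cases g : q ∈ O'
      · change U q ∈ N
        rw [hU1 q g]
        exact g2
      · change U q ∈ N
        rw [hU2 q g]
        exact g1
    · have h3 : U =ᶠ[𝓝 p] D := by
        filter_upwards [isClosed_closure.isOpen_compl.mem_nhds h2] with q hq
        exact hU2 q fun g => hq (subset_closure g)
      exact (hD p hp).congr_of_eventuallyEq (h3.filter_mono nhdsWithin_le_nhds) (hU2 p h1)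

end IND

open IND in
theorem ind : S_IND.{u} := by
  intro hM hP hR hC X _ hF ι κ _ _ _ _ x y hx hy hxy
  obtain ⟨-, hp0, hpbig, hpc, -⟩ := hP ι κ
  have main : ∀ i j : ℕ, j + i = Fintype.card κ + 1 →
      ∃ U : X → Matrix ι ι ℂ, ContinuousOn U {p | phi j (x p) ≠ 0} ∧
        (∀ p, phi j (x p) ≠ 0 → Contr (U p)) ∧ ∀ p, phi j (x p) ≠ 0 → U p * x p = y p := by
    intro i
    induction i with
    | zero =>
      intro j hj
      have hz : ∀ p, phi j (x p) = 0 := fun p => hpbig j (x p) (by omega)
      refine ⟨fun _ => 0, continuousOn_const, fun p hp => absurd (hz p) hp,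
        fun p hp => absurd (hz p) hp⟩
    | succ i ih =>
      intro j hj
      obtain ⟨U1, hc1, hco1, hm1⟩ := ih (j + 1) (by omega)
      obtain ⟨W, hWc, hWco, hWU⟩ := hM X hF ι ⟨fun p => phi (j + 1) (x p), (hpc (j + 1)).comp hx⟩ U1
        hc1 hco1
      have hWx : ∀ p, phi (j + 1) (x p) ≠ 0 → W p * x p = y p := by
        intro p hp
        rw [hWU p hp]
        exact hm1 p hp
      have hopen : IsOpen {p | phi (j + 1) (x p) ≠ 0} :=
        isOpen_ne_fun ((hpc (j + 1)).comp hx) continuous_const
      have hWcl : ∀ p ∈ closure {p | phi (j + 1) (x p) ≠ 0}, W p * x p = y p := by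
        have hcl : IsClosed {p | W p * x p = y p} := isClosed_eq (hWc.matrix_mul hx) hy
        intro p hp
        exact closure_minimal (fun q hq => hWx q hq) hcl hp
      let v : X → Matrix ι ι ℂ := fun p => ee j (x p) (y p)
      let e : X → Matrix ι ι ℂ := fun p => ee j (x p) (x p)
      let D : X → Matrix ι ι ℂ := fun p => v p + (1 - v p * (v p)ᴴ) * W p * (1 - e p)
      have hv : ContinuousOn v {p | phi j (x p) ≠ 0} := cont_ee hP j x y hx hy
      have he : ContinuousOn e {p | phi j (x p) ≠ 0} := cont_ee hP j x x hx hx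
      have hvH : ContinuousOn (fun p => (v p)ᴴ) {p | phi j (x p) ≠ 0} :=
        (continuous_id.matrix_conjTranspose).comp_continuousOn hv
      have hD : ContinuousOn D {p | phi j (x p) ≠ 0} :=
        hv.add (((continuousOn_const.sub (hv.mul hvH)).mul hWc.continuousOn).mul
          (continuousOn_const.sub he))
      have hrk : ∀ p, phi j (x p) ≠ 0 → phi (j + 1) (x p) = 0 →
          (Contr (D p)) ∧ D p * x p = y p ∧ (W p * x p = y p → D p = W p) := by
        intro p h1 h2
        obtain ⟨a1, a2, a3, a4, a5, a6, q, a7, a8⟩ := hR ι κ j (x p) (y p) (hxy p) h1 h2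
        obtain ⟨b1, b2⟩ := hC ι κ (e p) (v p) (W p) a1 a2 a3 a4 (hWco p)
        refine ⟨b1, ?_, fun h => b2 (x p) (y p) q a7 a8 h⟩
        have c1 : (1 - e p) * x p = 0 := by
          rw [Matrix.sub_mul, Matrix.one_mul]
          change x p - ee j (x p) (x p) * x p = 0
          rw [a5, sub_self]
        change (v p + (1 - v p * (v p)ᴴ) * W p * (1 - e p)) * x p = y p
        rw [Matrix.add_mul, Matrix.mul_assoc _ (1 - e p) (x p), c1, Matrix.mul_zero, add_zero]
        exact a6
      classical
      refine ⟨fun p => if phi (j + 1) (x p) ≠ 0 then W p else D p, ?_, ?_, ?_⟩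
      · refine glue _ {p | phi (j + 1) (x p) ≠ 0} hopen W D _ hWc hD ?_ ?_ ?_
        · intro p hp
          exact if_pos hp
        · intro p hp
          exact if_neg hp
        · intro p hp hp' hcl
          have h0 : phi (j + 1) (x p) = 0 := by
            by_contra h
            exact hp' h
          exact (hrk p hp h0).2.2 (hWcl p hcl)
      · intro p hp
        by_cases h : phi (j + 1) (x p) ≠ 0
        · simp only [if_pos h]
          exact hWco p
        · simp only [if_neg h]
          exact (hrk p hp (not_not.1 h)).1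
      · intro p hp
        by_cases h : phi (j + 1) (x p) ≠ 0
        · simp only [if_pos h]
          exact hWx p h
        · simp only [if_neg h]
          exact (hrk p hp (not_not.1 h)).2.1
  obtain ⟨U, h1, h2, h3⟩ := main (Fintype.card κ + 1) 0 (by omega)
  have hne : ∀ p, phi 0 (x p) ≠ 0 := by
    intro p
    rw [hp0]
    exact one_ne_zero
  refine ⟨U, ?_, fun p => h2 p (hne p), fun p => h3 p (hne p)⟩
  have hset : {p | phi 0 (x p) ≠ 0} = Set.univ := Set.eq_univ_of_forall hne
  rw [hset] at h1
  exact continuousOn_univ.1 h1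

end Pool.Agent.R841.TC
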