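import Pool.Agent.R841.TC.Stm

/-!
# TC-MEXT: extension of contraction valued functions from cozero sets of F-spaces
-/

namespace Pool.Agent.R841.TC

open Matrix
open scoped ComplexOrder

universe u

namespace MextAux

/-- the operator norm -/
noncomputable def opN {ι : Type} [Fintype ι] [DecidableEq ι] (z : Matrix ι ι ℂ) : ℝ :=
  ‖(Matrix.toEuclideanCLM (n := ι) (𝕜 := ℂ) z : EuclideanSpace ℂ ι →L[ℂ] EuclideanSpace ℂ ι)‖

theorem cont_opN {ι : Type} [Fintype ι] [DecidableEq ι] :
    Continuous (opN : Matrix ι ι ℂ → ℝ) := by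
  have h1 : Continuous (fun z : Matrix ι ι ℂ =>
      (Matrix.toEuclideanCLM (n := ι) (𝕜 := ℂ)).toAlgEquiv.toLinearMap z) :=
    LinearMap.continuous_of_finiteDimensional _
  exact h1.norm

theorem opN_smul {ι : Type} [Fintype ι] [DecidableEq ι] (r : ℝ) (z : Matrix ι ι ℂ) :
    opN ((r : ℂ) • z) = |r| * opN z := by
  unfold opN
  rw [map_smul, norm_smul]
  simp

theorem opN_nonneg {ι : Type} [Fintype ι] [DecidableEq ι] (z : Matrix ι ι ℂ) : 0 ≤ opN z :=
  norm_nonneg _

section
open scoped MatrixOrder Matrix.Norms.L2Operator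

theorem contr_iff {ι : Type} [Fintype ι] [DecidableEq ι] (z : Matrix ι ι ℂ) :
    Contr z ↔ opN z ≤ 1 := by
  unfold Contr opN
  rw [← Matrix.le_iff, Matrix.l2_opNorm_toEuclideanCLM]
  have h : (0 : Matrix ι ι ℂ) ≤ star z * z := star_mul_self_nonneg z
  rw [← Matrix.star_eq_conjTranspose, ← CStarAlgebra.norm_le_one_iff_of_nonneg _ h,
    CStarRing.norm_star_mul_self]
  constructor
  · intro h1; nlinarith [norm_nonneg z]
  · intro h1; nlinarith [norm_nonneg z]

end

theorem entry_le {ι : Type} [Fintype ι] [DecidableEq ι] {z : Matrix ι ι ℂ} (h : Contr z)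
    (i j : ι) : ‖z i j‖ ≤ 1 := by
  have h1 : 0 ≤ (1 - zᴴ * z) j j := h.diag_nonneg
  have h2 : (1 - zᴴ * z) j j = ((1 - ∑ k, ‖z k j‖ ^ 2 : ℝ) : ℂ) := by
    rw [Matrix.sub_apply, Matrix.one_apply_eq, Matrix.mul_apply]
    push_cast
    congr 1
    refine Finset.sum_congr rfl fun k _ => ?_
    rw [Matrix.conjTranspose_apply]
    exact Complex.conj_mul' (z k j)
  rw [h2] at h1
  have h3 : (0 : ℝ) ≤ 1 - ∑ k, ‖z k j‖ ^ 2 := by exact_mod_cast h1
  have h4 : ‖z i j‖ ^ 2 ≤ ∑ k, ‖z k j‖ ^ 2 :=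
    Finset.single_le_sum (f := fun k => ‖z k j‖ ^ 2) (fun k _ => by positivity) (Finset.mem_univ i)
  nlinarith [norm_nonneg (z i j)]

end MextAux

open MextAux

theorem mext : S_EXT.{u} → S_MEXT.{u} := by
  classical
  intro hE X _ hX ι _ _ φ U hU hc
  -- extension of one real function
  have key : ∀ f : Matrix ι ι ℂ → ℝ, Continuous f → (∀ z, Contr z → |f z| ≤ 1) →
      ∃ W : C(X, ℝ), ∀ x, φ x ≠ 0 → W x = f (U x) := by
    intro f hf hb
    have h1 : ContinuousOn (fun x => if φ x ≠ 0 then f (U x) else 0) {x | φ x ≠ 0} := by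
      have h1 : ContinuousOn (fun x => f (U x)) {x | φ x ≠ 0} := hf.comp_continuousOn hU
      refine h1.congr fun x hx => ?_
      exact if_pos hx
    have h2 : ∀ x, |(fun x => if φ x ≠ 0 then f (U x) else 0) x| ≤ 1 := by
      intro x
      by_cases hx : φ x ≠ 0
      · simp only [if_pos hx]
        exact hb _ (hc x hx)
      · simp only [if_neg hx]
        simp
    obtain ⟨W, hW⟩ := hE X hX φ (fun x => if φ x ≠ 0 then f (U x) else 0) h1 h2
    refine ⟨W, fun x hx => ?_⟩
    rw [hW x hx]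
    exact if_pos hx
  have kre : ∀ i j : ι, ∃ W : C(X, ℝ), ∀ x, φ x ≠ 0 → W x = (U x i j).re := fun i j =>
    key (fun z => (z i j).re) (Complex.continuous_re.comp (continuous_id.matrix_elem i j))
      fun z hz => (Complex.abs_re_le_norm _).trans (entry_le hz i j)
  have kim : ∀ i j : ι, ∃ W : C(X, ℝ), ∀ x, φ x ≠ 0 → W x = (U x i j).im := fun i j =>
    key (fun z => (z i j).im) (Complex.continuous_im.comp (continuous_id.matrix_elem i j))
      fun z hz => (Complex.abs_im_le_norm _).trans (entry_le hz i j)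
  choose R hR using kre
  choose I hI using kim
  set V : X → Matrix ι ι ℂ := fun x => Matrix.of fun i j => ((R i j x : ℂ) + (I i j x : ℂ) * Complex.I)
    with hV
  have hVc : Continuous V := by
    refine continuous_matrix fun i j => ?_
    show Continuous fun x => ((R i j x : ℂ) + (I i j x : ℂ) * Complex.I)
    exact (Complex.continuous_ofReal.comp (R i j).continuous).add
      ((Complex.continuous_ofReal.comp (I i j).continuous).mul continuous_const)
  have hVU : ∀ x, φ x ≠ 0 → V x = U x := by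
    intro x hx
    ext i j
    show ((R i j x : ℂ) + (I i j x : ℂ) * Complex.I) = U x i j
    rw [hR i j x hx, hI i j x hx, Complex.re_add_im]
  have hNc : Continuous fun x => opN (V x) := cont_opN.comp hVc
  have hm : ∀ x, 0 < max 1 (opN (V x)) := fun x => lt_of_lt_of_le one_pos (le_max_left _ _)
  refine ⟨fun x => (((max 1 (opN (V x)))⁻¹ : ℝ) : ℂ) • V x, ?_, fun x => ?_, fun x hx => ?_⟩
  · have h1 : Continuous fun x => (((max 1 (opN (V x)))⁻¹ : ℝ) : ℂ) :=
      Complex.continuous_ofReal.comp ((continuous_const.max hNc).inv₀ fun x => (hm x).ne')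
    exact Continuous.smul h1 hVc
  · rw [contr_iff, opN_smul, abs_of_pos (inv_pos.2 (hm x)), inv_mul_le_iff₀ (hm x), mul_one]
    exact le_max_right _ _
  · have h1 : opN (V x) ≤ 1 := by
      rw [hVU x hx]
      exact (contr_iff _).1 (hc x hx)
    show (((max 1 (opN (V x)))⁻¹ : ℝ) : ℂ) • V x = U x
    rw [max_eq_left h1, hVU x hx]
    simp

end Pool.Agent.R841.TC
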