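import Pool.Agent.R841.TC.Stm

/-!
# TC-NEC: the necessity
-/

namespace Pool.Agent.R841.TC

open Matrix
open scoped ComplexOrder

universe u

namespace NEC

variable {N : ℕ} {p q : Fin N}

noncomputable def v1 (p q : Fin N) (h : ℝ) : Matrix (Fin N) (Fin N) ℂ :=
  (h : ℂ) • Matrix.single p q 1 + Matrix.single q p 1

noncomputable def v2 (p q : Fin N) (h : ℝ) : Matrix (Fin N) (Fin N) ℂ :=
  Matrix.single p p 1 + ((|h| : ℝ) : ℂ) • Matrix.single q q 1

theorem v1v1 (hpq : p ≠ q) (h : ℝ) : (v1 p q h)ᴴ * v1 p q h =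
    Matrix.single p p 1 + ((h ^ 2 : ℝ) : ℂ) • Matrix.single q q 1 := by
  unfold v1
  rw [conjTranspose_add, conjTranspose_smul, Matrix.conjTranspose_single,
    Matrix.conjTranspose_single, add_mul, mul_add, mul_add]
  simp only [Matrix.smul_mul, Matrix.mul_smul, Matrix.single_mul_single_same,
    Matrix.single_mul_single_of_ne _ _ _ _ hpq, Matrix.single_mul_single_of_ne _ _ _ _ hpq.symm,
    star_one, mul_one, smul_zero, add_zero, zero_add, smul_smul]
  rw [add_comm]
  congr 2
  rw [Complex.star_def, Complex.conj_ofReal]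
  push_cast
  ring

theorem v2v2 (hpq : p ≠ q) (h : ℝ) : (v2 p q h)ᴴ * v2 p q h =
    Matrix.single p p 1 + ((h ^ 2 : ℝ) : ℂ) • Matrix.single q q 1 := by
  unfold v2
  rw [conjTranspose_add, conjTranspose_smul, Matrix.conjTranspose_single,
    Matrix.conjTranspose_single, add_mul, mul_add, mul_add]
  simp only [Matrix.smul_mul, Matrix.mul_smul, Matrix.single_mul_single_same,
    Matrix.single_mul_single_of_ne _ _ _ _ hpq, Matrix.single_mul_single_of_ne _ _ _ _ hpq.symm,
    star_one, mul_one, smul_zero, add_zero, zero_add, smul_smul]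
  congr 2
  rw [Complex.star_def, Complex.conj_ofReal, ← Complex.ofReal_mul, ← sq, sq_abs]

theorem v2v1 (hpq : p ≠ q) (h : ℝ) : (v2 p q h)ᴴ * v1 p q h =
    (h : ℂ) • Matrix.single p q 1 + ((|h| : ℝ) : ℂ) • Matrix.single q p 1 := by
  unfold v1 v2
  rw [conjTranspose_add, conjTranspose_smul, Matrix.conjTranspose_single,
    Matrix.conjTranspose_single, add_mul, mul_add, mul_add]
  simp only [Matrix.smul_mul, Matrix.mul_smul, Matrix.single_mul_single_same,
    Matrix.single_mul_single_of_ne _ _ _ _ hpq, Matrix.single_mul_single_of_ne _ _ _ _ hpq.symm,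
    star_one, mul_one, smul_zero, add_zero, zero_add, smul_smul]
  rw [Complex.star_def, Complex.conj_ofReal]

end NEC

theorem nec : S_NEC.{u} := by
  intro hG X _ N hN hP f
  have hp : 0 < N := by omega
  have hq : 1 < N := by omega
  obtain ⟨p, hpv⟩ : ∃ p : Fin N, p.val = 0 := ⟨⟨0, hp⟩, rfl⟩
  obtain ⟨q, hqv⟩ : ∃ q : Fin N, q.val = 1 := ⟨⟨1, hq⟩, rfl⟩
  have hpq : p ≠ q := by
    intro h
    rw [h, hqv] at hpv
    exact one_ne_zero hpv
  have c1 : Continuous (fun x => NEC.v1 p q (f x)) := by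
    unfold NEC.v1
    exact ((Complex.continuous_ofReal.comp f.continuous).smul continuous_const).add
      continuous_const
  have c2 : Continuous (fun x => NEC.v2 p q (f x)) := by
    unfold NEC.v2
    exact continuous_const.add ((Complex.continuous_ofReal.comp
      (continuous_abs.comp f.continuous)).smul continuous_const)
  let V1 : C(X, Matrix (Fin N) (Fin N) ℂ) := ⟨_, c1⟩
  let V2 : C(X, Matrix (Fin N) (Fin N) ℂ) := ⟨_, c2⟩
  have hV : star V1 * V1 = star V2 * V2 := by
    ext1 x
    show (NEC.v1 p q (f x))ᴴ * NEC.v1 p q (f x) = (NEC.v2 p q (f x))ᴴ * NEC.v2 p q (f x)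
    rw [NEC.v1v1 hpq, NEC.v2v2 hpq]
  let a : ℤ → C(X, Matrix (Fin N) (Fin N) ℂ) := fun l =>
    if l = 0 then star V1 * V1 else if l = 1 then star V2 * V1 else
      if l = -1 then star V1 * V2 else 0
  have hpos : MatPos (Matrix.of fun i j : Fin 2 => a ((i : ℤ) - (j : ℤ))) := by
    refine ⟨Matrix.of ![![V1, V2], ![0, 0]], ?_⟩
    ext1 i j
    rw [Matrix.mul_apply, Fin.sum_univ_two]
    fin_cases i <;> fin_cases j
    · simp [a, Matrix.conjTranspose_apply]
    · simp [a, Matrix.conjTranspose_apply]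
    · simp [a, Matrix.conjTranspose_apply]
    · simp [a, Matrix.conjTranspose_apply, hV]
  obtain ⟨y, hy, C, hC⟩ := hP 2 3 (by norm_num) (by norm_num) a hpos
  have hy0 : y 0 = star V1 * V1 := by
    rw [hy 0 (by norm_num)]
    simp [a]
  have hy1 : y 1 = star V2 * V1 := by
    rw [hy 1 (by norm_num)]
    simp [a]
  have hgcont : Continuous (fun x => ((y 2 x) p p).re) := by
    have h1 : Continuous (fun x => (y 2 x) p p) :=
      (continuous_apply p).comp ((continuous_apply p).comp (y 2).continuous)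
    exact Complex.continuous_re.comp h1
  refine ⟨⟨_, hgcont⟩, fun x => ?_⟩
  have hentry : ∀ i j : Fin 3, ((Matrix.of fun i j : Fin 3 => (C i j) x)ᴴ *
      (Matrix.of fun i j : Fin 3 => (C i j) x)) i j = (y ((i : ℤ) - (j : ℤ))) x := by
    intro i j
    have h1 := congrFun (congrFun hC i) j
    rw [Matrix.of_apply] at h1
    rw [h1, Matrix.mul_apply, Matrix.mul_apply, ContinuousMap.coe_sum, Finset.sum_apply]
    apply Finset.sum_congr rfl
    intro k _
    rw [Matrix.conjTranspose_apply, Matrix.conjTranspose_apply, Matrix.of_apply, Matrix.of_apply]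
    rfl
  have e0 : (y 0) x = Matrix.single p p 1 + (((f x) ^ 2 : ℝ) : ℂ) • Matrix.single q q 1 := by
    rw [hy0]
    exact NEC.v1v1 hpq (f x)
  have e1 : (y 1) x = (f x : ℂ) • Matrix.single p q 1 +
      ((|f x| : ℝ) : ℂ) • Matrix.single q p 1 := by
    rw [hy1]
    exact NEC.v2v1 hpq (f x)
  have hqp : q ≠ p := hpq.symm
  have key := hG N (f x) p q hpq (Matrix.of fun i j : Fin 3 => (C i j) x)
    (fun i => by rw [hentry, sub_self, e0]; simp [Matrix.single_apply, hpq, hqp])
    (fun i => by rw [hentry, sub_self, e0]; simp [Matrix.single_apply, hpq, hqp])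
    (by
      rw [hentry]
      have : (((1 : Fin 3) : ℕ) : ℤ) - (((0 : Fin 3) : ℕ) : ℤ) = 1 := by norm_num
      rw [this, e1]
      simp [Matrix.single_apply, hpq, hqp])
    (by
      rw [hentry]
      have : (((1 : Fin 3) : ℕ) : ℤ) - (((0 : Fin 3) : ℕ) : ℤ) = 1 := by norm_num
      rw [this, e1]
      simp [Matrix.single_apply, hpq, hqp])
    (by
      rw [hentry]
      have : (((2 : Fin 3) : ℕ) : ℤ) - (((1 : Fin 3) : ℕ) : ℤ) = 1 := by norm_num
      rw [this, e1]
      simp [Matrix.single_apply, hpq, hqp])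
    (by
      rw [hentry]
      have : (((2 : Fin 3) : ℕ) : ℤ) - (((1 : Fin 3) : ℕ) : ℤ) = 1 := by norm_num
      rw [this, e1]
      simp [Matrix.single_apply, hpq, hqp])
  rw [hentry] at key
  have h20 : (((2 : Fin 3) : ℕ) : ℤ) - (((0 : Fin 3) : ℕ) : ℤ) = 2 := by norm_num
  rw [h20] at key
  have hre := congrArg Complex.re key
  rw [Complex.re_ofReal_mul, Complex.ofReal_re] at hre
  show f x = ((y 2 x) p p).re * |f x|
  rw [mul_comm]
  exact hre.symm

end Pool.Agent.R841.TC
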