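import Pool.Agent.R841.TC.Stm

/-!
# MP_3f690c_an, piece TC-PHI: elementary facts on the functions `phi` and `EE`
-/

namespace Pool.Agent.R841.TC

open Matrix
open scoped ComplexOrder

theorem phi_facts : S_PHI := by
  intro ι κ _ _ _
  have hcs : ∀ (j : ℕ) (s : Fin j → κ), Continuous fun x : Matrix ι κ ℂ => x.submatrix id s :=
    fun j s => continuous_id.matrix_submatrix id s
  refine ⟨fun j x => ?_, fun x => ?_, fun j x hj => ?_, fun j => ?_, fun j => ?_⟩
  · refine Finset.sum_nonneg fun s _ => ?_
    have h := (Matrix.posSemidef_conjTranspose_mul_self (x.submatrix id s)).det_nonneg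
    exact (Complex.le_def.1 h).1
  · simp [phi, Matrix.det_fin_zero]
  · refine Finset.sum_eq_zero fun s _ => ?_
    obtain ⟨a, b, hab, hs⟩ := Fintype.exists_ne_map_eq_of_card_lt s (by simpa using hj)
    rw [Matrix.det_zero_of_row_eq hab]
    · simp
    · funext c
      simp [Matrix.mul_apply, hs]
  · refine continuous_finset_sum _ fun s _ => ?_
    exact Complex.continuous_re.comp
      (((hcs j s).matrix_conjTranspose.matrix_mul (hcs j s)).matrix_det)
  · refine continuous_finset_sum _ fun s _ => ?_
    have h1 : Continuous fun p : Matrix ι κ ℂ × Matrix ι κ ℂ => p.1.submatrix id s :=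
      (hcs j s).comp continuous_fst
    have h2 : Continuous fun p : Matrix ι κ ℂ × Matrix ι κ ℂ => p.2.submatrix id s :=
      (hcs j s).comp continuous_snd
    exact (h2.matrix_mul (h1.matrix_conjTranspose.matrix_mul h1).matrix_adjugate).matrix_mul
      h1.matrix_conjTranspose

end Pool.Agent.R841.TC
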