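import Pool.Agent.R841.TC.Stm

/-! TC-RK: the rank `j` stratum. -/

set_option autoImplicit false

namespace Pool.Agent.R841.TC

open Matrix
open scoped ComplexOrder

namespace RK

variable {ι κ : Type} [Fintype ι] [DecidableEq ι] [Fintype κ] [DecidableEq κ]

/-- selection matrix -/
def sel {j : ℕ} (s : Fin j → κ) : Matrix κ (Fin j) ℂ := Matrix.of fun k i => if k = s i then 1 else 0

omit [Fintype ι] [DecidableEq ι] in
lemma mul_sel {j : ℕ} (x : Matrix ι κ ℂ) (s : Fin j → κ) : x.submatrix id s = x * sel s := by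
  ext a i
  simp [Matrix.mul_apply, sel]

omit [DecidableEq ι] in
lemma det_re {j : ℕ} (M : Matrix ι (Fin j) ℂ) :
    0 ≤ ((Mᴴ * M).det).re ∧ ((((Mᴴ * M).det).re : ℝ) : ℂ) = (Mᴴ * M).det := by
  have h : 0 ≤ (Mᴴ * M).det := (Matrix.posSemidef_conjTranspose_mul_self M).det_nonneg
  rw [Complex.le_def] at h
  refine ⟨by simpa using h.1, ?_⟩
  apply Complex.ext
  · simp
  · simpa using h.2

omit [DecidableEq ι] in
lemma proj {j : ℕ} (x : Matrix ι κ ℂ) (s : Fin j → κ)
    (hG : IsUnit ((x.submatrix id s)ᴴ * (x.submatrix id s)).det) (h1 : phi (j + 1) x = 0) :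
    (x.submatrix id s) * ((x.submatrix id s)ᴴ * (x.submatrix id s))⁻¹ * (x.submatrix id s)ᴴ * x = x := by
  set X := x.submatrix id s with hX
  set G := Xᴴ * X with hGdef
  have hall : ∀ t : Fin (j + 1) → κ, ((x.submatrix id t)ᴴ * (x.submatrix id t)).det = 0 := by
    intro t
    have h2 := (Finset.sum_eq_zero_iff_of_nonneg
      (fun (t : Fin (j + 1) → κ) _ => (det_re (x.submatrix id t)).1)).1 h1 t (Finset.mem_univ t)
    rw [← (det_re (x.submatrix id t)).2, h2]
    simp
  have hcol : ∀ k : κ, ∃ d : Fin j → ℂ, X *ᵥ d = fun a => x a k := by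
    intro k
    obtain ⟨c, hc0, hc⟩ := Matrix.exists_mulVec_eq_zero_iff.2 (hall (Fin.cons k s))
    rw [Matrix.conjTranspose_mul_self_mulVec_eq_zero] at hc
    have hc' : ∀ a, x a k * c 0 + (X *ᵥ fun i => c i.succ) a = 0 := by
      intro a
      have h3 := congrFun hc a
      simp only [Matrix.mulVec, dotProduct, Fin.sum_univ_succ, Matrix.submatrix_apply, id,
        Fin.cons_zero, Fin.cons_succ, Pi.zero_apply] at h3
      simpa [Matrix.mulVec, dotProduct, hX] using h3
    have hc00 : c 0 ≠ 0 := by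
      intro h0
      apply hc0
      have h4 : X *ᵥ (fun i => c i.succ) = 0 := by
        ext a
        have := hc' a
        rw [h0, mul_zero, zero_add] at this
        simpa using this
      have h5 : G *ᵥ (fun i => c i.succ) = 0 := by
        rw [hGdef, ← Matrix.mulVec_mulVec, h4, Matrix.mulVec_zero]
      have h6 : (fun i : Fin j => c i.succ) = 0 := by
        have h7 : (G⁻¹ * G) *ᵥ (fun i : Fin j => c i.succ) = 0 := by
          rw [← Matrix.mulVec_mulVec, h5, Matrix.mulVec_zero]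
        rwa [Matrix.nonsing_inv_mul _ hG, Matrix.one_mulVec] at h7
      ext i
      refine Fin.cases ?_ (fun i => ?_) i
      · simpa using h0
      · simpa using congrFun h6 i
    refine ⟨fun i => -(c 0)⁻¹ * c i.succ, ?_⟩
    have h8 : X *ᵥ (fun i => -(c 0)⁻¹ * c i.succ) = (-(c 0)⁻¹) • (X *ᵥ fun i => c i.succ) := by
      rw [← Matrix.mulVec_smul]; rfl
    rw [h8]
    ext a
    have h9 := hc' a
    have h10 : (X *ᵥ fun i => c i.succ) a = - (x a k * c 0) := by linear_combination h9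
    simp only [Pi.smul_apply, smul_eq_mul, h10]
    field_simp
  have hP : ∀ k, (X * G⁻¹ * Xᴴ) *ᵥ (fun a => x a k) = fun a => x a k := by
    intro k
    obtain ⟨d, hd⟩ := hcol k
    rw [← hd, Matrix.mulVec_mulVec]
    have : X * G⁻¹ * Xᴴ * X = X := by
      rw [Matrix.mul_assoc, ← hGdef, Matrix.mul_assoc, Matrix.nonsing_inv_mul _ hG, Matrix.mul_one]
    rw [this]
  ext a k
  have := congrFun (hP k) a
  rw [Matrix.mul_apply]
  simpa [Matrix.mulVec, dotProduct] using this

lemma ee_eq {j : ℕ} (x y : Matrix ι κ ℂ) (hxy : xᴴ * x = yᴴ * y) (hj : phi j x ≠ 0)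
    (s : Fin j → κ) (hG : IsUnit ((x.submatrix id s)ᴴ * (x.submatrix id s)).det)
    (h1 : phi (j + 1) x = 0) :
    ee j x y = (y.submatrix id s) * ((x.submatrix id s)ᴴ * (x.submatrix id s))⁻¹ *
      (x.submatrix id s)ᴴ ∧
    (y.submatrix id s) * (((x.submatrix id s)ᴴ * (x.submatrix id s))⁻¹ *
      (x.submatrix id s)ᴴ * x) = y := by
  have hpr := proj x s hG h1
  set X := x.submatrix id s with hX
  set Y := y.submatrix id s with hY
  set G := Xᴴ * X with hGdef
  set C := G⁻¹ * Xᴴ * x with hC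
  have hxC : X * C = x := by
    rw [hC]
    simpa only [Matrix.mul_assoc] using hpr
  have hXs : X = x * sel s := mul_sel x s
  have hYs : Y = y * sel s := mul_sel y s
  have hZ : x * (1 - sel s * C) = 0 := by
    rw [Matrix.mul_sub, Matrix.mul_one, ← Matrix.mul_assoc, ← hXs, hxC, sub_self]
  have hyZ : y * (1 - sel s * C) = 0 := by
    have h2 : (y * (1 - sel s * C))ᴴ * (y * (1 - sel s * C)) = 0 := by
      rw [Matrix.conjTranspose_mul, Matrix.mul_assoc, ← Matrix.mul_assoc yᴴ, ← hxy,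
        Matrix.mul_assoc xᴴ, hZ, Matrix.mul_zero, Matrix.mul_zero]
    exact Matrix.conjTranspose_mul_self_eq_zero.1 h2
  have hyC : Y * C = y := by
    rw [Matrix.mul_sub, Matrix.mul_one, ← Matrix.mul_assoc, ← hYs, sub_eq_zero] at hyZ
    exact hyZ.symm
  refine ⟨?_, hyC⟩
  have hterm : ∀ t : Fin j → κ, (y.submatrix id t) *
      ((x.submatrix id t)ᴴ * (x.submatrix id t)).adjugate * (x.submatrix id t)ᴴ =
      ((x.submatrix id t)ᴴ * (x.submatrix id t)).det • (Y * G⁻¹ * Xᴴ) := by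
    intro t
    have hxt : x.submatrix id t = X * (C * sel t) := by
      rw [← Matrix.mul_assoc, hxC, mul_sel]
    have hyt : y.submatrix id t = Y * (C * sel t) := by
      rw [← Matrix.mul_assoc, hyC, mul_sel]
    rw [hxt, hyt]
    set c := C * sel t with hc
    have hgr : (X * c)ᴴ * (X * c) = cᴴ * (G * c) := by
      rw [Matrix.conjTranspose_mul, hGdef]
      simp only [Matrix.mul_assoc]
    rw [hgr, Matrix.adjugate_mul_distrib, Matrix.adjugate_mul_distrib,
      Matrix.conjTranspose_mul X c, Matrix.det_mul, Matrix.det_mul]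
    have e1 : Y * c * (c.adjugate * G.adjugate * cᴴ.adjugate) * (cᴴ * Xᴴ) =
        Y * ((c * c.adjugate) * G.adjugate * (cᴴ.adjugate * cᴴ)) * Xᴴ := by
      simp only [Matrix.mul_assoc]
    have hadj : G.adjugate = G.det • G⁻¹ := by
      rw [Matrix.inv_def, smul_smul, Ring.mul_inverse_cancel _ hG, one_smul]
    rw [e1, Matrix.mul_adjugate, Matrix.adjugate_mul, hadj]
    simp only [Matrix.smul_mul, Matrix.mul_smul, Matrix.one_mul, Matrix.mul_one, smul_smul]
  unfold ee EE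
  rw [Finset.sum_congr rfl fun t _ => hterm t, ← Finset.sum_smul, smul_smul]
  have hphi : ((phi j x : ℝ) : ℂ) = ∑ t : Fin j → κ,
      ((x.submatrix id t)ᴴ * (x.submatrix id t)).det := by
    unfold phi
    rw [Complex.ofReal_sum]
    exact Finset.sum_congr rfl fun t _ => (det_re (x.submatrix id t)).2
  rw [← hphi, Complex.ofReal_inv, inv_mul_cancel₀ (by exact_mod_cast hj), one_smul]

end RK

open RK in
theorem rk : S_RK := by
  intro ι κ _ _ _ _ j x y hxy hj h1
  obtain ⟨s, hs⟩ : ∃ s : Fin j → κ, (((x.submatrix id s)ᴴ * (x.submatrix id s)).det).re ≠ 0 := by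
    by_contra hcon
    push Not at hcon
    exact hj (Finset.sum_eq_zero fun s _ => hcon s)
  have hG : IsUnit ((x.submatrix id s)ᴴ * (x.submatrix id s)).det := by
    rw [isUnit_iff_ne_zero]
    intro h0
    rw [h0] at hs
    exact hs rfl
  obtain ⟨hV, hVx⟩ := ee_eq x y hxy hj s hG h1
  obtain ⟨hE, hEx⟩ := ee_eq x x rfl hj s hG h1
  rw [hV, hE]
  have hYY : (y.submatrix id s)ᴴ * (y.submatrix id s) = (x.submatrix id s)ᴴ * (x.submatrix id s) := by
    rw [mul_sel, mul_sel, Matrix.conjTranspose_mul, Matrix.conjTranspose_mul, Matrix.mul_assoc,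
      Matrix.mul_assoc, ← Matrix.mul_assoc yᴴ, ← Matrix.mul_assoc xᴴ, hxy]
  have hqx : x.submatrix id s = x * sel s := mul_sel x s
  have hqy : y.submatrix id s = y * sel s := mul_sel y s
  generalize hXX : x.submatrix id s = X at *
  generalize hYYY : y.submatrix id s = Y at *
  have hGH : (Xᴴ * X)ᴴ = Xᴴ * X := by
    rw [Matrix.conjTranspose_mul, Matrix.conjTranspose_conjTranspose]
  have hGi : ((Xᴴ * X)⁻¹)ᴴ = (Xᴴ * X)⁻¹ := by
    rw [Matrix.conjTranspose_nonsing_inv, hGH]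
  have hc1 : (Xᴴ * X)⁻¹ * (Xᴴ * X) = 1 := Matrix.nonsing_inv_mul _ hG
  have hc2 : ∀ Z : Matrix (Fin j) ι ℂ, (Xᴴ * X)⁻¹ * (Xᴴ * (X * Z)) = Z := by
    intro Z
    rw [← Matrix.mul_assoc Xᴴ, ← Matrix.mul_assoc, hc1, Matrix.one_mul]
  refine ⟨?_, ?_, ?_, ?_, ?_, ?_, sel s * (Xᴴ * X)⁻¹ * Xᴴ, ?_, ?_⟩
  · rw [Matrix.conjTranspose_mul, Matrix.conjTranspose_mul, Matrix.conjTranspose_conjTranspose, hGi,
      Matrix.mul_assoc]
  · simp only [Matrix.mul_assoc]
    rw [hc2]
  · rw [Matrix.conjTranspose_mul, Matrix.conjTranspose_mul, Matrix.conjTranspose_conjTranspose, hGi]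
    have : X * ((Xᴴ * X)⁻¹ * Yᴴ) * (Y * (Xᴴ * X)⁻¹ * Xᴴ) =
        X * ((Xᴴ * X)⁻¹ * (Yᴴ * Y) * ((Xᴴ * X)⁻¹ * Xᴴ)) := by
      simp only [Matrix.mul_assoc]
    rw [this, hYY, hc1, Matrix.one_mul, Matrix.mul_assoc]
  · simp only [Matrix.mul_assoc]
    rw [hc2]
  · simpa only [Matrix.mul_assoc] using hEx
  · simpa only [Matrix.mul_assoc] using hVx
  · rw [← Matrix.mul_assoc, ← Matrix.mul_assoc, ← hqx]
  · rw [← Matrix.mul_assoc, ← Matrix.mul_assoc, ← hqy]

end Pool.Agent.R841.TC
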