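import Pool.Agent.R841.TC.Stm

/-! TC-SQRT: continuous positive semidefinite functions have continuous square roots (helper700). -/

set_option autoImplicit false

namespace Pool.Agent.R841.TC

open Matrix
open scoped ComplexOrder Matrix.Norms.L2Operator MatrixOrder NNReal Topology

universe u

theorem sqrt_cont : S_SQRT.{u} := by
  intro X _ ι _ _ Y hY hpos
  have h0 : ∀ p, 0 ≤ Y p := fun p => (hpos p).nonneg
  refine ⟨fun p => CFC.sqrt (Y p), ?_, fun p => ?_⟩
  · exact CFC.continuousOn_sqrt.comp_continuous hY h0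
  · have h2 : (CFC.sqrt (Y p))ᴴ = CFC.sqrt (Y p) := by
      have h3 : IsSelfAdjoint (CFC.sqrt (Y p)) := (CFC.sqrt_nonneg (Y p)).isSelfAdjoint
      exact h3
    rw [h2, CFC.sqrt_mul_sqrt_self (Y p) (h0 p)]

end Pool.Agent.R841.TC
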