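import Pool.Agent.R841.TC.Stm

/-!
# TC-SUF : assembly of the sufficiency
-/

namespace Pool.Agent.R841.TC

open Matrix
open scoped ComplexOrder

universe u

namespace SufAux

theorem gram_app {X : Type u} [TopologicalSpace X] {N m : ℕ}
    (D : Matrix (Fin m) (Fin m) C(X, Matrix (Fin N) (Fin N) ℂ)) (i j : Fin m) (p : X)
    (c c' : Fin N) :
    ((Dᴴ * D) i j : C(X, Matrix (Fin N) (Fin N) ℂ)) p c c' =
      ∑ r, ∑ s, star (D r i p s c) * D r j p s c' := by
  rw [Matrix.mul_apply, ContinuousMap.sum_apply, Matrix.sum_apply]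
  refine Finset.sum_congr rfl fun r _ => ?_
  rw [ContinuousMap.mul_apply, Matrix.mul_apply]
  refine Finset.sum_congr rfl fun s _ => ?_
  rw [Matrix.conjTranspose_apply, ContinuousMap.star_apply, Matrix.star_eq_conjTranspose,
    Matrix.conjTranspose_apply]

/-- columns of `B` as a matrix with `N` columns -/
noncomputable def RR {X : Type u} [TopologicalSpace X] {N m : ℕ}
    (B : Matrix (Fin m) (Fin m) C(X, Matrix (Fin N) (Fin N) ℂ)) (j : Fin m) (p : X) :
    Matrix (Fin m × Fin N) (Fin N) ℂ :=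
  Matrix.of fun rs c => B rs.1 j p rs.2 c

theorem RR_cont {X : Type u} [TopologicalSpace X] {N m : ℕ}
    (B : Matrix (Fin m) (Fin m) C(X, Matrix (Fin N) (Fin N) ℂ)) (j : Fin m) :
    Continuous fun p => RR B j p := by
  refine continuous_matrix fun rs c => ?_
  have h : Continuous fun p => B rs.1 j p := (B rs.1 j).continuous
  exact h.matrix_elem rs.2 c

theorem RR_gram {X : Type u} [TopologicalSpace X] {N m : ℕ}
    (B : Matrix (Fin m) (Fin m) C(X, Matrix (Fin N) (Fin N) ℂ)) (i j : Fin m) (p : X) :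
    (RR B i p)ᴴ * RR B j p = ((Bᴴ * B) i j : C(X, Matrix (Fin N) (Fin N) ℂ)) p := by
  ext c c'
  rw [gram_app, Matrix.mul_apply, Fintype.sum_prod_type]
  rfl

/-- the extension -/
noncomputable def yy {ι ν : Type} [Fintype ι] [DecidableEq ι] [Fintype ν]
    (U : Matrix ι ι ℂ) (R : Matrix ι ν ℂ) (l : ℤ) : Matrix ν ν ℂ :=
  if 0 ≤ l then Rᴴ * (Uᴴ) ^ l.toNat * R else Rᴴ * U ^ (-l).toNat * R

theorem yy_cont {X : Type u} [TopologicalSpace X] {ι ν : Type} [Fintype ι] [DecidableEq ι]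
    [Fintype ν] (U : X → Matrix ι ι ℂ) (R : X → Matrix ι ν ℂ) (hU : Continuous U)
    (hR : Continuous R) (l : ℤ) : Continuous fun p => yy (U p) (R p) l := by
  unfold yy
  split_ifs with h
  · exact (hR.matrix_conjTranspose.matrix_mul (hU.matrix_conjTranspose.pow _)).matrix_mul hR
  · exact (hR.matrix_conjTranspose.matrix_mul (hU.pow _)).matrix_mul hR

theorem TB_eq {ι ν : Type} [Fintype ι] [DecidableEq ι] [Fintype ν] (n : ℕ)
    (U : Matrix ι ι ℂ) (R : Matrix ι ν ℂ) (a b : Fin n × ν) :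
    TB n U R a b = yy U R (((a.1 : ℕ) : ℤ) - ((b.1 : ℕ) : ℤ)) a.2 b.2 := by
  unfold TB yy
  rw [Matrix.of_apply]
  by_cases h : (b.1 : ℕ) ≤ (a.1 : ℕ)
  · have h2 : (0 : ℤ) ≤ ((a.1 : ℕ) : ℤ) - ((b.1 : ℕ) : ℤ) := by omega
    have h3 : (((a.1 : ℕ) : ℤ) - ((b.1 : ℕ) : ℤ)).toNat = (a.1 : ℕ) - (b.1 : ℕ) := by omega
    rw [if_pos h, if_pos h2, h3]
  · have h2 : ¬ (0 : ℤ) ≤ ((a.1 : ℕ) : ℤ) - ((b.1 : ℕ) : ℤ) := by omega
    have h3 : (-(((a.1 : ℕ) : ℤ) - ((b.1 : ℕ) : ℤ))).toNat = (b.1 : ℕ) - (a.1 : ℕ) := by omega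
    rw [if_neg h, if_neg h2, h3]

end SufAux

open SufAux in
theorem suf : S_SUF.{u} := by
  intro hE hSq hT X _ N hF k n hk hkn a hpos
  obtain ⟨B, hB⟩ := hpos
  obtain ⟨k', rfl⟩ : ∃ k', k = k' + 1 := ⟨k - 1, by omega⟩
  have hgram : ∀ (i j : Fin (k' + 1)) (p : X),
      (RR B i p)ᴴ * RR B j p = a (((i : ℕ) : ℤ) - ((j : ℕ) : ℤ)) p := by
    intro i j p
    rw [RR_gram, ← hB]
    rfl
  have hxc : Continuous fun p : X => (Matrix.of fun (i : Fin (k' + 1) × Fin N)
      (jc : Fin k' × Fin N) => RR B jc.1.castSucc p i jc.2 :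
      Matrix (Fin (k' + 1) × Fin N) (Fin k' × Fin N) ℂ) := by
    refine continuous_matrix fun i jc => ?_
    exact (RR_cont B jc.1.castSucc).matrix_elem i jc.2
  have hyc : Continuous fun p : X => (Matrix.of fun (i : Fin (k' + 1) × Fin N)
      (jc : Fin k' × Fin N) => RR B jc.1.succ p i jc.2 :
      Matrix (Fin (k' + 1) × Fin N) (Fin k' × Fin N) ℂ) := by
    refine continuous_matrix fun i jc => ?_
    exact (RR_cont B jc.1.succ).matrix_elem i jc.2
  obtain ⟨U, hUc, hUcontr, hU⟩ := hE X hF (Fin (k' + 1) × Fin N) (Fin k' × Fin N) _ _ hxc hyc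
    (fun p => by
      ext jc jc'
      have h1 := congrFun (congrFun (hgram jc.1.castSucc jc'.1.castSucc p) jc.2) jc'.2
      have h2 := congrFun (congrFun (hgram jc.1.succ jc'.1.succ p) jc.2) jc'.2
      have h3 : (((jc.1.castSucc : Fin (k' + 1)) : ℕ) : ℤ) -
          (((jc'.1.castSucc : Fin (k' + 1)) : ℕ) : ℤ) =
          (((jc.1.succ : Fin (k' + 1)) : ℕ) : ℤ) - (((jc'.1.succ : Fin (k' + 1)) : ℕ) : ℤ) := by
        simp only [Fin.val_castSucc, Fin.val_succ]
        push_cast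
        ring
      rw [h3, ← h2] at h1
      exact h1)
  have hstep : ∀ (j : Fin k') (p : X), U p * RR B j.castSucc p = RR B j.succ p := by
    intro j p
    ext i c
    have h1 := congrFun (congrFun (hU p) i) (j, c)
    exact h1
  have hpow : ∀ (l : ℕ) (hl : l < k' + 1) (p : X),
      RR B ⟨l, hl⟩ p = U p ^ l * RR B 0 p := by
    intro l
    induction l with
    | zero =>
      intro hl p
      rw [pow_zero, Matrix.one_mul]
      rfl
    | succ l ih =>
      intro hl p
      have h1 := hstep ⟨l, by omega⟩ p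
      have h2 := ih (by omega) p
      have h3 : RR B (Fin.castSucc ⟨l, by omega⟩ : Fin (k' + 1)) p = RR B ⟨l, by omega⟩ p := rfl
      rw [h3, h2] at h1
      rw [pow_succ', Matrix.mul_assoc, h1]
      rfl
  refine ⟨fun l => ⟨fun p => yy (U p) (RR B 0 p) l, yy_cont U _ hUc (RR_cont B 0) l⟩, ?_, ?_⟩
  · intro l hl
    ext1 p
    show yy (U p) (RR B 0 p) l = a l p
    unfold yy
    split_ifs with h0
    · obtain ⟨m, rfl⟩ := Int.eq_ofNat_of_zero_le h0
      have hm : m < k' + 1 := by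
        rw [abs_of_nonneg h0] at hl
        exact_mod_cast hl
      have h1 := hgram ⟨m, hm⟩ 0 p
      rw [hpow m hm p, Matrix.conjTranspose_mul, Matrix.conjTranspose_pow] at h1
      simp only [Fin.val_zero, Nat.cast_zero, sub_zero] at h1
      rw [← h1]
      rfl
    · obtain ⟨m, hm1⟩ : ∃ m : ℕ, l = -(m : ℤ) := ⟨(-l).toNat, by omega⟩
      have hm : m < k' + 1 := by
        rw [hm1, abs_neg, Nat.abs_cast] at hl
        exact_mod_cast hl
      have h1 := hgram 0 ⟨m, hm⟩ p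
      rw [hpow m hm p] at h1
      simp only [Fin.val_zero, Nat.cast_zero, zero_sub] at h1
      have h2 : (-l).toNat = m := by omega
      rw [h2, hm1, ← h1, Matrix.mul_assoc]
  · have hYc : Continuous fun p => TB n (U p) (RR B 0 p) := by
      refine continuous_matrix fun i j => ?_
      simp only [TB_eq]
      exact (yy_cont U _ hUc (RR_cont B 0) _).matrix_elem _ _
    obtain ⟨C, hC, hCY⟩ := hSq X (Fin n × Fin N) (fun p => TB n (U p) (RR B 0 p)) hYc
      (fun p => hT _ _ n (U p) (RR B 0 p) (hUcontr p))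
    refine ⟨Matrix.of fun i j => ⟨fun p => Matrix.of fun c c' => C p (i, c) (j, c'), ?_⟩, ?_⟩
    · refine continuous_matrix fun c c' => ?_
      exact hC.matrix_elem _ _
    · ext i j p c c'
      rw [gram_app]
      have h1 : TB n (U p) (RR B 0 p) (i, c) (j, c') = ((C p)ᴴ * C p) (i, c) (j, c') :=
        congrFun (congrFun (hCY p) (i, c)) (j, c')
      rw [TB_eq, Matrix.mul_apply, Fintype.sum_prod_type] at h1
      exact h1

end Pool.Agent.R841.TC
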