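import Pool.Agent.R841.TC.Stm

/-!
# MP_3f690c_an : the matrix-stable form of the completion property for all unital C*-algebras
-/

namespace Pool.Agent.R841.TC

open Matrix

universe u

/-- weak polar decomposition (Douglas type factorization): if `x* x = y* y` then `x = u y` for a
contraction `u` (`1 - u* u = d* d`). -/
def WPol (B : Type u) [Ring B] [StarRing B] : Prop :=
  ∀ x y : B, star x * x = star y * y → ∃ v d : B, x = v * y ∧ 1 - star v * v = star d * d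

/-- finite sums of `c* c` are of this form -/
def SumSq (B : Type u) [Ring B] [StarRing B] : Prop :=
  ∀ (m : ℕ) (c : Fin m → B), ∃ d : B, ∑ i, star (c i) * c i = star d * d

/-- `∑ c* c = 0` only if all `c = 0` -/
def Prop' (B : Type u) [Ring B] [StarRing B] : Prop :=
  ∀ (m : ℕ) (c : Fin m → B), ∑ i, star (c i) * c i = 0 → ∀ i, c i = 0

/-- TC-GCS -/
def S_GCS : Prop := ∀ (A : Type u) [CStarAlgebra A] (n : ℕ),
  SumSq (Matrix (Fin n) (Fin n) A) ∧ Prop' (Matrix (Fin n) (Fin n) A)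

/-- TC-GNEC -/
def S_GNEC : Prop := ∀ (B : Type u) [Ring B] [StarRing B], SumSq B → Prop' B →
  PTC (Matrix (Fin 2) (Fin 2) B) → WPol B

/-- TC-GSUF -/
def S_GSUF : Prop := ∀ (B : Type u) [Ring B] [StarRing B],
  (∀ m : ℕ, SumSq (Matrix (Fin m) (Fin m) B)) → (∀ k : ℕ, WPol (Matrix (Fin k) (Fin k) B)) →
    PTC B

/-- TC-GISO -/
def S_GISO : Prop :=
  (∀ (B C : Type u) [Ring B] [StarRing B] [Ring C] [StarRing C], Nonempty (B ≃⋆+* C) →
    (PTC B → PTC C) ∧ (WPol B → WPol C) ∧ (SumSq B → SumSq C)) ∧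
  (∀ (A : Type u) [Ring A] [StarRing A] (m n : ℕ),
    Nonempty (Matrix (Fin m) (Fin m) (Matrix (Fin n) (Fin n) A) ≃⋆+*
      Matrix (Fin (m * n)) (Fin (m * n)) A))

/-- TC-GMAIN -/
def S_GM : Prop := ∀ (A : Type u) [CStarAlgebra A],
  (∀ n : ℕ, 0 < n → PTC (Matrix (Fin n) (Fin n) A)) ↔
    (∀ n : ℕ, 0 < n → WPol (Matrix (Fin n) (Fin n) A))

def S_GMAIN : Prop := S_GCS.{u} → S_GNEC.{u} → S_GSUF.{u} → S_GISO.{u} → S_GM.{u}

end Pool.Agent.R841.TC
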